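import Pool.Agent.CovL.PeiLam
import Pool.Agent.SDN.Crowd

/-!
The weight of the words with many leaves and few visited cells on some scale.
-/

set_option autoImplicit false

namespace CovL

open Finset HexObs HexObs.SDN HexObs.SDN.Crw TS

open scoped ENNReal

/-- the words that are crowded on some scale without many doublings -/
def BadL (A : ℝ) (Lam b0 L : ℕ) (Y : ℝ) : Set (List Bool) :=
  {t | t ∈ WL L ∧ ∃ (dir : Bool) (c m u : ℕ) (e : ℕ → ℕ), b0 ≤ c ∧ c ≤ L + 2 ∧ Y < m ∧ Lf dir c t m u e ∧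
    A * nb c t ≤ m ∧ dbl (2 ^ (c - 1)) (lws t e 1 (m - 2)) ≤ Lam * m}

theorem bad_lam (Lam : ℕ) : ∃ (A C : ℝ) (b0 : ℕ), 1 ≤ A ∧ 0 < C ∧ 1 ≤ b0 ∧ ∀ (L : ℕ) (Y : ℝ), 1 ≤ L → 1 ≤ Y →
    gf (BadL A Lam b0 L Y) ≤ ENNReal.ofReal (((2 : ℝ) ^ L) ^ C * C * (2 : ℝ) ^ (-Y)) := by
  obtain ⟨A, C, b1, hA, hC, hP⟩ := peierls_lam Lam
  refine ⟨A, 16 * (C + 1), b1 + 1, hA, by positivity, by omega, ?_⟩
  intro L Y hL hY
  obtain ⟨K, hKdef⟩ : ∃ K : ℝ, K = ((2 : ℝ) ^ L) ^ C * C := ⟨_, rfl⟩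
  have hK0 : 0 ≤ K := by rw [hKdef]; positivity
  let Q : Bool → ℕ → ℕ → Set (List Bool) := fun dir c m => {t | (b1 + 1 ≤ c ∧ c ≤ L + 2 ∧ Y < m) ∧ t ∈ WL L ∧
    ∃ u e, Lf dir c t m u e ∧ A * nb c t ≤ m ∧ dbl (2 ^ (c - 1)) (lws t e 1 (m - 2)) ≤ Lam * m}
  have hQ : ∀ dir c m, gf (Q dir c m) ≤ ENNReal.ofReal (K * (2 : ℝ) ^ (-Y)) * (1 / 2) ^ m := by
    intro dir c m
    by_cases h : b1 + 1 ≤ c ∧ c ≤ L + 2 ∧ Y < m
    · have hm : 1 ≤ m := by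
        have : (0 : ℝ) < m := by linarith [h.2.2]
        exact_mod_cast this
      refine le_trans (gf_mono (fun t ht => ht.2)) ?_
      have := hP L c m dir hL (by omega) h.2.1 hm
      rw [← hKdef] at this
      exact this.trans (term_le hK0 h.2.2)
    · have : Q dir c m = ∅ := by
        ext t
        exact ⟨fun ht => (h ht.1).elim, fun ht => ht.elim⟩
      rw [this]
      simp [gf]
  have hsub : BadL A Lam (b1 + 1) L Y ⊆ ⋃ dir : Bool, ⋃ c : Fin (L + 3), ⋃ m : ℕ, Q dir c m := by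
    rintro t ⟨ht, dir, c, m, u, e, h1, h2, h3, h4, h5, h6⟩
    rw [Set.mem_iUnion]
    refine ⟨dir, ?_⟩
    rw [Set.mem_iUnion]
    refine ⟨⟨c, by omega⟩, ?_⟩
    rw [Set.mem_iUnion]
    exact ⟨m, ⟨h1, h2, h3⟩, ht, u, e, h4, h5, h6⟩
  refine (gf_mono hsub).trans ?_
  have hS : ∀ (dir : Bool) (c : Fin (L + 3)), gf (⋃ m : ℕ, Q dir c m) ≤ ENNReal.ofReal (K * (2 : ℝ) ^ (-Y)) * 2 := by
    intro dir c
    refine (gf_iUnion_le _).trans ((ENNReal.tsum_le_tsum fun m => hQ dir c m).trans ?_)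
    rw [ENNReal.tsum_mul_left]
    have : ∑' m : ℕ, (1 / 2 : ℝ≥0∞) ^ m = 2 := by
      rw [ENNReal.tsum_geometric]
      rw [one_div, ENNReal.one_sub_inv_two, inv_inv]
    rw [this]
  have hS2 : ∀ dir : Bool, gf (⋃ c : Fin (L + 3), ⋃ m : ℕ, Q dir c m) ≤
      ENNReal.ofReal ((L + 3 : ℕ) * (K * (2 : ℝ) ^ (-Y) * 2)) := by
    intro dir
    refine (gf_iUnion_le _).trans ((ENNReal.tsum_le_tsum (hS dir)).trans ?_)
    rw [tsum_fintype, Finset.sum_const, Finset.card_univ, Fintype.card_fin, nsmul_eq_mul]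
    have e2 : ((L + 3 : ℕ) : ℝ≥0∞) * (ENNReal.ofReal (K * (2 : ℝ) ^ (-Y)) * 2) =
        ENNReal.ofReal ((L + 3 : ℕ) * (K * (2 : ℝ) ^ (-Y) * 2)) := by
      rw [ENNReal.ofReal_mul (Nat.cast_nonneg (L + 3)), ENNReal.ofReal_mul (q := 2) (by positivity),
        ENNReal.ofReal_natCast, ENNReal.ofReal_ofNat]
    rw [e2]
  refine (gf_iUnion_le _).trans ((ENNReal.tsum_le_tsum hS2).trans ?_)
  rw [tsum_fintype, Finset.sum_const, Finset.card_univ, Fintype.card_bool, nsmul_eq_mul]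
  have e3 : ((2 : ℕ) : ℝ≥0∞) * ENNReal.ofReal ((L + 3 : ℕ) * (K * (2 : ℝ) ^ (-Y) * 2)) =
      ENNReal.ofReal (2 * ((L + 3 : ℕ) * (K * (2 : ℝ) ^ (-Y) * 2))) := by
    rw [ENNReal.ofReal_mul (by norm_num : (0 : ℝ) ≤ 2), ENNReal.ofReal_ofNat]
    norm_num
  rw [e3]
  apply ENNReal.ofReal_le_ofReal
  have hL3 : ((L + 3 : ℕ) : ℝ) ≤ 4 * (2 : ℝ) ^ L := by
    have : ∀ n : ℕ, n + 3 ≤ 4 * 2 ^ n := by
      intro n
      induction n with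
      | zero => norm_num
      | succ n ih => rw [pow_succ]; omega
    exact_mod_cast this L
  have h2L : (1 : ℝ) ≤ (2 : ℝ) ^ L := one_le_pow₀ (by norm_num)
  have h5 : ((2 : ℝ) ^ L) ^ C * (2 : ℝ) ^ L ≤ ((2 : ℝ) ^ L) ^ (16 * (C + 1)) := by
    calc ((2 : ℝ) ^ L) ^ C * (2 : ℝ) ^ L = ((2 : ℝ) ^ L) ^ (C + 1) := by
          rw [Real.rpow_add (by positivity), Real.rpow_one]
      _ ≤ _ := Real.rpow_le_rpow_of_exponent_le h2L (by linarith)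
  have hY2 : 0 ≤ (2 : ℝ) ^ (-Y) := by positivity
  calc 2 * (((L + 3 : ℕ) : ℝ) * (K * (2 : ℝ) ^ (-Y) * 2)) ≤ 2 * ((4 * (2 : ℝ) ^ L) * (K * (2 : ℝ) ^ (-Y) * 2)) := by
        apply mul_le_mul_of_nonneg_left _ (by norm_num)
        exact mul_le_mul_of_nonneg_right hL3 (by positivity)
    _ = (((2 : ℝ) ^ L) ^ C * (2 : ℝ) ^ L) * (16 * C) * (2 : ℝ) ^ (-Y) := by rw [hKdef]; ring
    _ ≤ ((2 : ℝ) ^ L) ^ (16 * (C + 1)) * (16 * (C + 1)) * (2 : ℝ) ^ (-Y) := by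
        apply mul_le_mul_of_nonneg_right _ hY2
        exact mul_le_mul h5 (by linarith) (by positivity) (by positivity)

/-- the hypothesis of `xx_le` for the words that are not bad -/
theorem good_H {A : ℝ} {Lam b0 L : ℕ} {Y : ℝ} {t : List Bool} (ht : t ∈ WL L) (hb : t ∉ BadL A Lam b0 L Y)
    (dir : Bool) (c m u : ℕ) (e : ℕ → ℕ) (h1 : b0 ≤ c) (h2 : c ≤ L + 2) (h3 : Lf dir c t m u e)
    (h4 : dbl (2 ^ (c - 1)) (lws t e 1 (m - 2)) ≤ Lam * m) : (m : ℝ) ≤ A * nb c t ∨ (m : ℝ) ≤ Y := by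
  by_contra h
  push Not at h
  exact hb ⟨ht, dir, c, m, u, e, h1, h2, h.2, h3, h.1.le, h4⟩

end CovL
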