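import Pool.Agent.SDN.CoarseW

/-!
Numbers of visited cells on two scales: a connected walk that visits a large cell visits many small ones near it.
-/

set_option autoImplicit false

namespace CovL

open Finset

/-- discrete intermediate value theorem, upwards -/
lemma ivt_up {f : ℕ → ℤ} (hf : ∀ k, |f (k + 1) - f k| ≤ 1) {a b : ℕ} (hab : a ≤ b) {v : ℤ} (h1 : f a ≤ v)
    (h2 : v ≤ f b) : ∃ k, a ≤ k ∧ k ≤ b ∧ f k = v := by
  induction b, hab using Nat.le_induction with
  | base => exact ⟨a, le_refl _, le_refl _, le_antisymm h1 h2⟩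
  | succ b hb ih =>
    rcases le_or_gt v (f b) with h | h
    · obtain ⟨k, k1, k2, k3⟩ := ih h
      exact ⟨k, k1, by omega, k3⟩
    · have := hf b
      rw [abs_le] at this
      exact ⟨b + 1, by omega, le_refl _, by omega⟩

/-- discrete intermediate value theorem, downwards -/
lemma ivt_down {f : ℕ → ℤ} (hf : ∀ k, |f (k + 1) - f k| ≤ 1) {a b : ℕ} (hab : a ≤ b) {v : ℤ} (h1 : v ≤ f a)
    (h2 : f b ≤ v) : ∃ k, a ≤ k ∧ k ≤ b ∧ f k = v := by
  obtain ⟨k, k1, k2, k3⟩ := ivt_up (f := fun k => - f k) (fun k => by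
    have := hf k
    rw [abs_le] at this ⊢
    constructor <;> omega) hab (v := -v) (by omega) (by omega)
  exact ⟨k, k1, k2, by omega⟩

/-- one coordinate leaves the neighbourhood of its large cell: a full interval of values -/
lemma sweep {f : ℕ → ℤ} (hf : ∀ k, |f (k + 1) - f k| ≤ 1) {M : ℤ} (hM : 1 ≤ M) {a b : ℕ} (hab : a ≤ b) {X : ℤ}
    (h1 : f a / M = X) (h2 : X + 2 ≤ f b / M ∨ f b / M ≤ X - 2) :
    ∃ v0 : ℤ, ∀ v, v0 ≤ v → v < v0 + M → ∃ k, a ≤ k ∧ k < b ∧ f k = v := by
  have hM0 : 0 < M := by omega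
  have a1 : X * M ≤ f a := by
    rw [← h1]
    exact Int.ediv_mul_le _ (by omega)
  have a2 : f a < (X + 1) * M := by
    rw [← h1]
    exact Int.lt_ediv_add_one_mul_self _ hM0
  rcases h2 with h | h
  · have b1 : (X + 2) * M ≤ f b := by
      have := Int.ediv_mul_le (f b) (show M ≠ 0 by omega)
      have h3 : (X + 2) * M ≤ f b / M * M := mul_le_mul_of_nonneg_right h (by omega)
      omega
    refine ⟨(X + 1) * M, fun v v1 v2 => ?_⟩
    have e : (X + 2) * M = (X + 1) * M + M := by ring
    obtain ⟨k, k1, k2, k3⟩ := ivt_up hf hab (v := v) (by omega) (by omega)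
    refine ⟨k, k1, ?_, k3⟩
    rcases Nat.lt_or_ge k b with h4 | h4
    · exact h4
    · have : k = b := by omega
      subst this
      omega
  · have b1 : f b < (X - 1) * M := by
      have h3 := Int.lt_ediv_add_one_mul_self (f b) hM0
      have h4 : (f b / M + 1) * M ≤ (X - 1) * M := mul_le_mul_of_nonneg_right (by omega) (by omega)
      omega
    refine ⟨(X - 1) * M, fun v v1 v2 => ?_⟩
    have e : X * M = (X - 1) * M + M := by ring
    obtain ⟨k, k1, k2, k3⟩ := ivt_down hf hab (v := v) (by omega) (by omega)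
    refine ⟨k, k1, ?_, k3⟩
    rcases Nat.lt_or_ge k b with h4 | h4
    · exact h4
    · have : k = b := by omega
      subst this
      omega

/-- the small cell `s` lies in the neighbourhood of the large cell `Q` -/
def Nbh (M : ℤ) (Q s : ℤ × ℤ) : Prop := |s.1 / M - Q.1| ≤ 1 ∧ |s.2 / M - Q.2| ≤ 1

instance (M : ℤ) (Q s : ℤ × ℤ) : Decidable (Nbh M Q s) := by
  unfold Nbh
  infer_instance

/-- a walk that leaves the neighbourhood of a large cell after the time a -/
lemma leave {c : ℕ → ℤ × ℤ} (h1 : ∀ k, |(c (k + 1)).1 - (c k).1| ≤ 1) (h2 : ∀ k, |(c (k + 1)).2 - (c k).2| ≤ 1)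
    {M : ℕ} (hM : 1 ≤ M) {a b : ℕ} (hab : a ≤ b) {Q : ℤ × ℤ} (hQ : ((c a).1 / (M : ℤ), (c a).2 / (M : ℤ)) = Q)
    (hb : ¬ Nbh M Q (c b)) :
    M ≤ (((Finset.Icc a b).image c).filter (fun s => Nbh M Q s)).card := by
  classical
  have hMz : (1 : ℤ) ≤ M := by exact_mod_cast hM
  -- the first exit
  have hex : ∃ k, a ≤ k ∧ ¬ Nbh M Q (c k) := ⟨b, hab, hb⟩
  obtain ⟨k0, hk0⟩ : ∃ k0, k0 = Nat.find hex := ⟨_, rfl⟩
  have hk1 := Nat.find_spec hex
  rw [← hk0] at hk1
  have hk2 : ∀ k, a ≤ k → k < k0 → Nbh M Q (c k) := by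
    intro k ka kk
    by_contra hc
    rw [hk0] at kk
    exact Nat.find_min hex kk ⟨ka, hc⟩
  have hk3 : k0 ≤ b := by
    rw [hk0]
    exact Nat.find_min' hex ⟨hab, hb⟩
  have q1 : (c a).1 / (M : ℤ) = Q.1 := by rw [← hQ]
  have q2 : (c a).2 / (M : ℤ) = Q.2 := by rw [← hQ]
  -- in both cases an injection of an interval
  have key : ∀ f : ℤ × ℤ → ℤ, (∃ v0 : ℤ, ∀ v, v0 ≤ v → v < v0 + (M : ℤ) → ∃ k, a ≤ k ∧ k < k0 ∧ f (c k) = v) →
      M ≤ (((Finset.Icc a b).image c).filter (fun s => Nbh M Q s)).card := by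
    intro f ⟨v0, hv⟩
    have hsub : Finset.Ico v0 (v0 + (M : ℤ)) ⊆
        (((Finset.Icc a b).image c).filter (fun s => Nbh M Q s)).image f := by
      intro v hv'
      rw [Finset.mem_Ico] at hv'
      obtain ⟨k, ka, kb, kc⟩ := hv v hv'.1 hv'.2
      rw [Finset.mem_image]
      refine ⟨c k, ?_, kc⟩
      rw [Finset.mem_filter, Finset.mem_image]
      exact ⟨⟨k, Finset.mem_Icc.2 ⟨ka, by omega⟩, rfl⟩, hk2 k ka kb⟩
    have hcard := Finset.card_le_card hsub
    rw [Int.card_Ico] at hcard
    have h3 : (v0 + (M : ℤ) - v0).toNat = M := by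
      rw [add_sub_cancel_left]
      exact Int.toNat_natCast M
    rw [h3] at hcard
    exact hcard.trans Finset.card_image_le
  by_cases hx : |(c k0).1 / (M : ℤ) - Q.1| ≤ 1
  · have hy : ¬ |(c k0).2 / (M : ℤ) - Q.2| ≤ 1 := fun h => hk1.2 ⟨hx, h⟩
    apply key (fun s => s.2)
    apply sweep (f := fun k => (c k).2) h2 hMz hk1.1 q2
    by_contra hc
    push Not at hc
    apply hy
    rw [abs_le]
    constructor <;> omega
  · apply key (fun s => s.1)
    apply sweep (f := fun k => (c k).1) h1 hMz hk1.1 q1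
    by_contra hc
    push Not at hc
    apply hx
    rw [abs_le]
    constructor <;> omega

/-- the number of large cells near a small one -/
lemma card_near (M : ℤ) (s : ℤ × ℤ) (N : Finset (ℤ × ℤ)) : (N.filter (fun Q => Nbh M Q s)).card ≤ 9 := by
  have hsub : N.filter (fun Q => Nbh M Q s) ⊆
      (Finset.Icc (s.1 / M - 1) (s.1 / M + 1)) ×ˢ (Finset.Icc (s.2 / M - 1) (s.2 / M + 1)) := by
    intro Q hQ
    rw [Finset.mem_filter] at hQ
    obtain ⟨-, h1, h2⟩ := hQ
    rw [abs_le] at h1 h2
    rw [Finset.mem_product, Finset.mem_Icc, Finset.mem_Icc]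
    refine ⟨⟨?_, ?_⟩, ⟨?_, ?_⟩⟩ <;> omega
  refine (Finset.card_le_card hsub).trans ?_
  rw [Finset.card_product, Int.card_Icc, Int.card_Icc]
  have e1 : (s.1 / M + 1 + 1 - (s.1 / M - 1)).toNat = 3 := by
    have : s.1 / M + 1 + 1 - (s.1 / M - 1) = 3 := by ring
    rw [this]
    rfl
  have e2 : (s.2 / M + 1 + 1 - (s.2 / M - 1)).toNat = 3 := by
    have : s.2 / M + 1 + 1 - (s.2 / M - 1) = 3 := by ring
    rw [this]
    rfl
  rw [e1, e2]

/-- the number of large cells in the neighbourhood of one -/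
lemma card_in (N : Finset (ℤ × ℤ)) (Q : ℤ × ℤ) (h : ∀ R ∈ N, |R.1 - Q.1| ≤ 1 ∧ |R.2 - Q.2| ≤ 1) : N.card ≤ 9 := by
  have h1 := card_near 1 Q N
  have h2 : N.filter (fun R => Nbh 1 R Q) = N := by
    apply Finset.filter_true_of_mem
    intro R hR
    obtain ⟨h3, h4⟩ := h R hR
    unfold Nbh
    rw [Int.ediv_one, Int.ediv_one, abs_sub_comm, abs_sub_comm Q.2]
    exact ⟨h3, h4⟩
  rw [h2] at h1
  exact h1

theorem conn_seq {c : ℕ → ℤ × ℤ} (h1 : ∀ k, |(c (k + 1)).1 - (c k).1| ≤ 1) (h2 : ∀ k, |(c (k + 1)).2 - (c k).2| ≤ 1)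
    (n : ℕ) {M : ℕ} (hM : 1 ≤ M) :
    M * ((range (n + 1)).image (fun k => ((c k).1 / (M : ℤ), (c k).2 / (M : ℤ)))).card ≤
      9 * ((range (n + 1)).image c).card + 9 * M := by
  classical
  obtain ⟨N, hN⟩ : ∃ N, N = (range (n + 1)).image (fun k => ((c k).1 / (M : ℤ), (c k).2 / (M : ℤ))) := ⟨_, rfl⟩
  obtain ⟨S, hS⟩ : ∃ S, S = (range (n + 1)).image c := ⟨_, rfl⟩
  rw [← hN, ← hS]
  by_cases hA : ∀ Q ∈ N, ∃ k, k ≤ n ∧ ¬ Nbh M Q (c k)
  · -- many small cells near every large one
    have hQ : ∀ Q ∈ N, M ≤ (S.filter (fun s => Nbh M Q s)).card := by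
      intro Q hQ
      obtain ⟨b, hb, hb2⟩ := hA Q hQ
      rw [hN, Finset.mem_image] at hQ
      obtain ⟨a, ha, ha2⟩ := hQ
      rw [Finset.mem_range] at ha
      rcases le_total a b with hab | hab
      · refine (leave h1 h2 hM hab ha2 hb2).trans (Finset.card_le_card ?_)
        apply Finset.filter_subset_filter
        rw [hS]
        apply Finset.image_subset_image
        intro k hk
        rw [Finset.mem_Icc] at hk
        rw [Finset.mem_range]
        omega
      · -- reversed walk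
        have r1 : ∀ k, |(c (a - (k + 1))).1 - (c (a - k)).1| ≤ 1 := by
          intro k
          rcases Nat.lt_or_ge k a with hk | hk
          · have e : a - k = a - (k + 1) + 1 := by omega
            have := h1 (a - (k + 1))
            rw [e, abs_sub_comm]
            exact this
          · have e1 : a - (k + 1) = 0 := by omega
            have e2 : a - k = 0 := by omega
            rw [e1, e2]
            simp
        have r2 : ∀ k, |(c (a - (k + 1))).2 - (c (a - k)).2| ≤ 1 := by
          intro k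
          rcases Nat.lt_or_ge k a with hk | hk
          · have e : a - k = a - (k + 1) + 1 := by omega
            have := h2 (a - (k + 1))
            rw [e, abs_sub_comm]
            exact this
          · have e1 : a - (k + 1) = 0 := by omega
            have e2 : a - k = 0 := by omega
            rw [e1, e2]
            simp
        have h3 := leave (c := fun k => c (a - k)) r1 r2 hM (Nat.zero_le (a - b)) (Q := Q) ha2 (by
          have : a - (a - b) = b := by omega
          simp only [this]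
          exact hb2)
        refine h3.trans (Finset.card_le_card ?_)
        apply Finset.filter_subset_filter
        rw [hS]
        intro s hs
        rw [Finset.mem_image] at hs ⊢
        obtain ⟨k, _, k2⟩ := hs
        exact ⟨a - k, Finset.mem_range.2 (by omega), k2⟩
    have s1 : M * N.card ≤ ∑ Q ∈ N, (S.filter (fun s => Nbh M Q s)).card := by
      calc M * N.card = ∑ _Q ∈ N, M := by rw [Finset.sum_const, smul_eq_mul, mul_comm]
        _ ≤ _ := Finset.sum_le_sum hQ
    have s2 : ∑ Q ∈ N, (S.filter (fun s => Nbh M Q s)).card = ∑ s ∈ S, (N.filter (fun Q => Nbh M Q s)).card := by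
      simp only [Finset.card_filter]
      exact Finset.sum_comm
    have s3 : ∑ s ∈ S, (N.filter (fun Q => Nbh M Q s)).card ≤ 9 * S.card := by
      calc ∑ s ∈ S, (N.filter (fun Q => Nbh M Q s)).card ≤ ∑ _s ∈ S, 9 :=
            Finset.sum_le_sum fun s _ => card_near _ s N
        _ = 9 * S.card := by rw [Finset.sum_const, smul_eq_mul, mul_comm]
    omega
  · push Not at hA
    obtain ⟨Q, -, hQ⟩ := hA
    have h9 : N.card ≤ 9 := by
      apply card_in N Q
      intro R hR
      rw [hN, Finset.mem_image] at hR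
      obtain ⟨k, hk, hk2⟩ := hR
      rw [Finset.mem_range] at hk
      have := hQ k (by omega)
      unfold Nbh at this
      rw [← hk2]
      exact this
    calc M * N.card ≤ M * 9 := Nat.mul_le_mul_left _ h9
      _ = 9 * M := by ring
      _ ≤ _ := by omega

open HexObs HexObs.SDN TS

/-- steps of the cell coordinates -/
lemma cell_step (dir : Bool) (b : ℕ) (t : List Bool) (k : ℕ) :
    |row dir (vx oo up t (k + 1)) / 2 ^ b - row dir (vx oo up t k) / 2 ^ b| ≤ 1 := by
  have h : |row dir (vx oo up t (k + 1)) - row dir (vx oo up t k)| ≤ 1 := rws_step dir t k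
  have h2 : (0 : ℤ) < 2 ^ b := by positivity
  generalize row dir (vx oo up t (k + 1)) = x at *
  generalize row dir (vx oo up t k) = y at *
  generalize (2 : ℤ) ^ b = R at *
  rw [abs_le] at h ⊢
  constructor
  · have h3 : y ≤ x + 1 * R := by nlinarith
    have h4 : y / R ≤ (x + 1 * R) / R := Int.ediv_le_ediv h2 h3
    rw [Int.add_mul_ediv_right _ _ (by omega)] at h4
    omega
  · have h3 : x ≤ y + 1 * R := by nlinarith
    have h4 : x / R ≤ (y + 1 * R) / R := Int.ediv_le_ediv h2 h3
    rw [Int.add_mul_ediv_right _ _ (by omega)] at h4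
    omega

/-- **numbers of visited cells on two scales** -/
theorem nb_conn (b i : ℕ) (t : List Bool) : 2 ^ i * nb (b + i) t ≤ 9 * nb b t + 9 * 2 ^ i := by
  have h := conn_seq (c := fun k => cell b (vx oo up t k)) (fun k => cell_step false b t k)
    (fun k => cell_step true b t k) t.length (M := 2 ^ i) Nat.one_le_two_pow
  have e : (fun k => ((cell b (vx oo up t k)).1 / ((2 ^ i : ℕ) : ℤ), (cell b (vx oo up t k)).2 / ((2 ^ i : ℕ) : ℤ))) =
      fun k => cell (b + i) (vx oo up t k) := by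
    funext k
    have h2 : ∀ x : ℤ, x / 2 ^ b / ((2 ^ i : ℕ) : ℤ) = x / 2 ^ (b + i) := by
      intro x
      rw [Int.ediv_ediv_of_nonneg (by positivity), pow_add]
      push_cast
      rfl
    unfold cell
    simp only [h2]
  simp only [e] at h
  exact h

end CovL
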