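import Pool.Agent.CovL.Main

/-!
# The covering number at all scales: the theorem
-/

set_option autoImplicit false

namespace CovL

open Finset HexObs HexObs.SDN TS

lemma Reg_mono {f : ℕ → Fin 3 → ℂ} {a b c c' δ : ℝ} {n : ℕ} {s : Fin n → Fin 3} (h : MS.Reg f a b c δ s)
    (hc' : 0 < c') (hcc : c' ≤ c) : MS.Reg f a b c' δ s := by
  intro i j hij hj hd
  obtain ⟨⟨k, hk1, hk2, h1⟩, h2⟩ := h i j hij hj hd
  have hp : (0 : ℝ) ≤ (j : ℝ) - i := by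
    have : (i : ℝ) ≤ j := by exact_mod_cast hij.le
    linarith
  refine ⟨⟨k, hk1, hk2, le_trans ?_ h1⟩, fun k hk1 hk2 => (h2 k hk1 hk2).trans ?_⟩
  · exact mul_le_mul_of_nonneg_right hcc (Real.rpow_nonneg hp _)
  · exact mul_le_mul_of_nonneg_right (inv_anti₀ hc' hcc) (Real.rpow_nonneg hp _)

lemma CovLow_mono {f : ℕ → Fin 3 → ℂ} {c c' ε ε' : ℝ} {n : ℕ} {s : Fin n → Fin 3} (h : CovLow f c ε s)
    (hn : 1 ≤ n) (hc' : 0 < c') (hcc : c' ≤ c) (hε : ε ≤ ε') : CovLow f c' ε' s := by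
  intro r hr1 hr2 F hF
  refine le_trans ?_ (h r hr1 hr2 F hF)
  have hn1 : (1 : ℝ) ≤ n := by exact_mod_cast hn
  apply div_le_div_of_nonneg_right _ (Real.rpow_nonneg (by linarith) _)
  exact mul_le_mul hcc (Real.rpow_le_rpow_of_exponent_le hn1 (by linarith)) (by positivity) (by linarith)

/-- regular walks lie in the box -/
lemma mem_WL {f : ℕ → Fin 3 → ℂ} {t : List Bool} {n L : ℕ} {s : Fin n → Fin 3} {V : ℝ}
    (hPos : Pos (MS.pw f s) t n) (hSA : t ∈ SA) (hV : ∀ k, k ≤ n → ‖MS.pw f s k - MS.pw f s 0‖ ≤ V)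
    (hV1 : 1 ≤ V) (hL : 2 * V ≤ 2 ^ L) : t ∈ WL L := by
  refine ⟨hSA, fun i hi dir => ?_⟩
  rw [hPos.1] at hi
  have h1 := hPos.2 i 0 hi (Nat.zero_le n)
  have h0 : vx oo up t 0 = 0 := rfl
  rw [h0, sub_zero] at h1
  have h2 : ((nrm (vx oo up t i) : ℤ) : ℝ) ≤ V ^ 2 := by
    rw [← h1]
    exact pow_le_pow_left₀ (norm_nonneg _) (hV i hi) 2
  have h3 := abs_lvl_le (dir := dir) (by linarith : 0 ≤ V) h2
  have h4 := row_up dir (vx oo up t i) 0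
  have h5 : row dir (0 : Pt) = 0 := by cases dir <;> rfl
  have h6 : lvl dir (0 : Pt) = 0 := by cases dir <;> rfl
  rw [h5, h6, sub_zero, sub_zero] at h4
  have h7 : (3 : ℝ) * |((row dir (vx oo up t i) : ℤ) : ℝ)| ≤ |((lvl dir (vx oo up t i) : ℤ) : ℝ)| + 2 := by
    exact_mod_cast h4
  have h8 : |((row dir (vx oo up t i) : ℤ) : ℝ)| ≤ 2 ^ L := by linarith
  exact_mod_cast h8

open scoped Classical in
/-- **the covering number is large on all scales**, with stretched exponentially small exceptions -/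
theorem cover_low (h : ∀ p q : ℝ, p < 3 / 2 → 3 / 2 < q → MS.TwoSided p q) (ε : ℝ) (hε : 0 < ε) :
    ∃ c : ℝ, 0 < c ∧ ∀ f : ℕ → Fin 3 → ℂ, MS.Hex f → ∀ n : ℕ, 1 ≤ n →
      (((MS.SW f n).filter (fun s => ¬ CovLow f c ε s)).card : ℝ) ≤
        c⁻¹ * Real.exp (-(n : ℝ) ^ c) * ((MS.SW f n).card : ℝ) := by
  obtain ⟨η, hη⟩ : ∃ η : ℝ, η = min (ε / 9) (1 / 8) := ⟨_, rfl⟩
  have hη0 : 0 < η := by rw [hη]; exact lt_min (by positivity) (by norm_num)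
  have hη1 : η ≤ ε / 9 := by rw [hη]; exact min_le_left _ _
  have hη8 : η ≤ 1 / 8 := by rw [hη]; exact min_le_right _ _
  obtain ⟨u, hu, h1⟩ := MS.final h η hη0
  obtain ⟨c₀, hc₀d⟩ : ∃ c₀ : ℝ, c₀ = min u 1 := ⟨_, rfl⟩
  have hc₀ : 0 < c₀ := by rw [hc₀d]; exact lt_min hu one_pos
  have hc₀1 : c₀ ≤ 1 := by rw [hc₀d]; exact min_le_right _ _
  have hc₀u : c₀ ≤ u := by rw [hc₀d]; exact min_le_left _ _
  have hci : 1 ≤ c₀⁻¹ := (one_le_inv₀ hc₀).2 hc₀1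
  -- the number of doublings
  have h2η : (1 : ℝ) < 2 ^ η := Real.one_lt_rpow (by norm_num) hη0
  obtain ⟨Lam, hLamd⟩ : ∃ Lam : ℕ, Lam = ⌈2 / ((2 : ℝ) ^ η - 1)⌉₊ + 3 := ⟨_, rfl⟩
  have hLam : 3 ≤ Lam := by omega
  have hLam2 : 1 + 2 / ((Lam : ℝ) - 2) ≤ (2 : ℝ) ^ η := by
    have h3 : 2 / ((2 : ℝ) ^ η - 1) ≤ (Lam : ℝ) - 2 := by
      rw [hLamd]
      push_cast
      have := Nat.le_ceil (2 / ((2 : ℝ) ^ η - 1))
      linarith
    have h4 : 0 < (2 : ℝ) ^ η - 1 := by linarith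
    have h5 : 0 < (Lam : ℝ) - 2 := lt_of_lt_of_le (by positivity) h3
    rw [div_le_iff₀ h4] at h3
    have h6 : 2 / ((Lam : ℝ) - 2) ≤ (2 : ℝ) ^ η - 1 := by
      rw [div_le_iff₀ h5]
      linarith
    linarith
  obtain ⟨A, C, b0, hA, hC, hb0, hbad⟩ := bad_lam Lam
  obtain ⟨c₁, hc₁, hdet⟩ := cover_reg hη0 hη8 hc₀ hc₀1 hA hb0 hLam hLam2
  obtain ⟨D, hD, hDb⟩ := MS.pow_exp_le C (η / 2) hC.le (by positivity)
  -- thresholds
  have t1 : Filter.Tendsto (fun n : ℕ => (n : ℝ) ^ η) Filter.atTop Filter.atTop :=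
    (tendsto_rpow_atTop hη0).comp tendsto_natCast_atTop_atTop
  have t2 : Filter.Tendsto (fun n : ℕ => (n : ℝ) ^ (3 / 4 - η)) Filter.atTop Filter.atTop :=
    (tendsto_rpow_atTop (by linarith)).comp tendsto_natCast_atTop_atTop
  have t3 : Filter.Tendsto (fun n : ℕ => (n : ℝ) ^ (η / 2)) Filter.atTop Filter.atTop :=
    (tendsto_rpow_atTop (by positivity)).comp tendsto_natCast_atTop_atTop
  obtain ⟨n₀, hn₀⟩ := ((Filter.tendsto_atTop.1 t1 ((2 : ℝ) ^ b0)).and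
    ((Filter.tendsto_atTop.1 t2 (4 * c₀⁻¹)).and (Filter.tendsto_atTop.1 t3 2))).exists_forall_of_atTop
  obtain ⟨K, hK⟩ : ∃ K : ℝ, K = 3 * C * (4 * c₀⁻¹) ^ C * D := ⟨_, rfl⟩
  have hK0 : 0 < K := by rw [hK]; positivity
  obtain ⟨c, hcd⟩ : ∃ c : ℝ, c = min (min u (η / 4)) (min c₁ (min (u⁻¹ + K)⁻¹ (Real.exp (-((n₀ : ℝ) + 1))))) :=
    ⟨_, rfl⟩
  have hc : 0 < c := by
    rw [hcd]
    exact lt_min (lt_min hu (by positivity)) (lt_min hc₁ (lt_min (by positivity) (Real.exp_pos _)))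
  have cu : c ≤ u := by rw [hcd]; exact (min_le_left _ _).trans (min_le_left _ _)
  have cη : c ≤ η / 4 := by rw [hcd]; exact (min_le_left _ _).trans (min_le_right _ _)
  have c1 : c ≤ c₁ := by rw [hcd]; exact (min_le_right _ _).trans (min_le_left _ _)
  have cK : c ≤ (u⁻¹ + K)⁻¹ := by
    rw [hcd]
    exact (min_le_right _ _).trans ((min_le_right _ _).trans (min_le_left _ _))
  have ce : c ≤ Real.exp (-((n₀ : ℝ) + 1)) := by
    rw [hcd]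
    exact (min_le_right _ _).trans ((min_le_right _ _).trans (min_le_right _ _))
  refine ⟨c, hc, fun f hf n hn => ?_⟩
  have hnR : (1 : ℝ) ≤ n := by exact_mod_cast hn
  have hn0 : (0 : ℝ) < n := by linarith
  have hc1' : c ≤ 1 := by linarith
  -- small `n`
  rcases lt_or_ge n n₀ with hlt | hge
  · have e1 : (((MS.SW f n).filter (fun s => ¬ CovLow f c ε s)).card : ℝ) ≤ 1 * ((MS.SW f n).card : ℝ) := by
      rw [one_mul]
      exact_mod_cast Finset.card_le_card (Finset.filter_subset _ _)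
    refine e1.trans (mul_le_mul_of_nonneg_right ?_ (Nat.cast_nonneg _))
    have e2 : (n : ℝ) ^ c ≤ (n₀ : ℝ) + 1 := by
      calc (n : ℝ) ^ c ≤ (n : ℝ) ^ (1 : ℝ) := Real.rpow_le_rpow_of_exponent_le hnR hc1'
        _ = n := Real.rpow_one _
        _ ≤ n₀ := by exact_mod_cast hlt.le
        _ ≤ _ := by linarith
    have e3 : Real.exp (-((n₀ : ℝ) + 1)) ≤ Real.exp (-(n : ℝ) ^ c) := by
      rw [Real.exp_le_exp]
      linarith
    calc (1 : ℝ) = c⁻¹ * c := (inv_mul_cancel₀ hc.ne').symm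
      _ ≤ c⁻¹ * Real.exp (-(n : ℝ) ^ c) := mul_le_mul_of_nonneg_left (ce.trans e3) (by positivity)
  obtain ⟨g1, g2, g3⟩ := hn₀ n hge
  obtain ⟨V, hV⟩ : ∃ V : ℝ, V = c₀⁻¹ * (n : ℝ) ^ (3 / 4 + η) := ⟨_, rfl⟩
  have hx34 : (1 : ℝ) ≤ (n : ℝ) ^ (3 / 4 + η) := Real.one_le_rpow hnR (by linarith)
  have hV1 : 1 ≤ V := by rw [hV]; nlinarith
  obtain ⟨m, hm1, hm2⟩ := pow_near (x := 2 * V) (by linarith)
  obtain ⟨L, hL⟩ : ∃ L, L = m + 1 := ⟨_, rfl⟩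
  rw [← hL] at hm1 hm2
  have hnη : (1 : ℝ) ≤ (n : ℝ) ^ η := Real.one_le_rpow hnR hη0.le
  -- the two bad events
  have hprob := prop_le hf hn (BadL A Lam b0 L ((n : ℝ) ^ η)) (K := ((2 : ℝ) ^ L) ^ C * C * (2 : ℝ) ^ (-(n : ℝ) ^ η))
    (by positivity) (hbad L ((n : ℝ) ^ η) (by omega) hnη)
  have hprob2 : 3 * (((2 : ℝ) ^ L) ^ C * C * (2 : ℝ) ^ (-(n : ℝ) ^ η)) ≤ K * Real.exp (-(n : ℝ) ^ (η / 4)) := by
    have p1 : ((2 : ℝ) ^ L) ^ C ≤ (4 * c₀⁻¹) ^ C * ((n : ℝ) + 1) ^ C := by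
      rw [← Real.mul_rpow (by positivity) (by positivity)]
      apply Real.rpow_le_rpow (by positivity) _ hC.le
      have p2 : (n : ℝ) ^ (3 / 4 + η) ≤ (n : ℝ) + 1 := by
        calc (n : ℝ) ^ (3 / 4 + η) ≤ (n : ℝ) ^ (1 : ℝ) := Real.rpow_le_rpow_of_exponent_le hnR (by linarith)
          _ = n := Real.rpow_one _
          _ ≤ _ := by linarith
      calc (2 : ℝ) ^ L ≤ 2 * (2 * V) := hm2
        _ = 4 * c₀⁻¹ * (n : ℝ) ^ (3 / 4 + η) := by rw [hV]; ring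
        _ ≤ _ := mul_le_mul_of_nonneg_left p2 (by positivity)
    have p3 : (2 : ℝ) ^ (-(n : ℝ) ^ η) ≤ Real.exp (-(n : ℝ) ^ (η / 2)) := by
      rw [Real.rpow_def_of_pos (by norm_num), Real.exp_le_exp]
      have p4 : (n : ℝ) ^ η = (n : ℝ) ^ (η / 2) * (n : ℝ) ^ (η / 2) := by
        rw [← Real.rpow_add hn0]
        congr 1
        ring
      have p5 : (1 / 2 : ℝ) < Real.log 2 := by
        have := Real.log_two_gt_d9
        linarith
      have p6 : 0 ≤ (n : ℝ) ^ (η / 2) := by positivity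
      rw [p4]
      nlinarith [mul_nonneg p6 (by linarith : (0 : ℝ) ≤ (n : ℝ) ^ (η / 2) - 2)]
    have p7 := hDb n hn
    have e4 : η / 2 / 2 = η / 4 := by ring
    rw [e4] at p7
    calc 3 * (((2 : ℝ) ^ L) ^ C * C * (2 : ℝ) ^ (-(n : ℝ) ^ η)) ≤
        3 * (((4 * c₀⁻¹) ^ C * ((n : ℝ) + 1) ^ C) * C * Real.exp (-(n : ℝ) ^ (η / 2))) := by
          apply mul_le_mul_of_nonneg_left _ (by norm_num)
          exact mul_le_mul (mul_le_mul_of_nonneg_right p1 hC.le) p3 (by positivity) (by positivity)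
      _ = 3 * C * (4 * c₀⁻¹) ^ C * (((n : ℝ) + 1) ^ C * Real.exp (-(n : ℝ) ^ (η / 2))) := by ring
      _ ≤ 3 * C * (4 * c₀⁻¹) ^ C * (D * Real.exp (-(n : ℝ) ^ (η / 4))) :=
          mul_le_mul_of_nonneg_left p7 (by positivity)
      _ = _ := by rw [hK]; ring
  obtain ⟨-, -, -, -, hreg⟩ := h1 f hf n hn
  have hsub : (MS.SW f n).filter (fun s => ¬ CovLow f c ε s) ⊆
      (MS.SW f n).filter (fun s => ¬ MS.Reg f (3 / 4 - η) (3 / 4 + η) u η s) ∪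
      (MS.SW f n).filter (fun s => wd s ∈ BadL A Lam b0 L ((n : ℝ) ^ η)) := by
    intro s hs
    rw [Finset.mem_filter] at hs
    rw [Finset.mem_union, Finset.mem_filter, Finset.mem_filter]
    by_contra hcon
    push Not at hcon
    have r1 := hcon.1 hs.1
    have r2 := hcon.2 hs.1
    have r3 := Reg_mono r1 hc₀ hc₀u
    obtain ⟨r4, r5⟩ := wd_pos hf hn hs.1
    have r6 : wd s ∈ WL L := by
      refine mem_WL r4 r5 (V := V) (fun k hk => ?_) hV1 hm1.le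
      obtain ⟨-, r7⟩ := r3 0 n (by omega) le_rfl (by
        rw [Nat.cast_zero, sub_zero]
        calc (n : ℝ) ^ η ≤ (n : ℝ) ^ (1 : ℝ) := Real.rpow_le_rpow_of_exponent_le hnR (by linarith)
          _ = n := Real.rpow_one _)
      have := r7 k (Nat.zero_le k) hk
      rw [Nat.cast_zero, sub_zero] at this
      rw [hV]
      exact this
    have r8 : (n : ℝ) ^ (3 / 4 : ℝ) ≤ 2 ^ L := by
      have : (n : ℝ) ^ (3 / 4 : ℝ) ≤ (n : ℝ) ^ (3 / 4 + η) := Real.rpow_le_rpow_of_exponent_le hnR (by linarith)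
      have h9 : (n : ℝ) ^ (3 / 4 + η) ≤ V := by rw [hV]; nlinarith
      linarith
    have r9 : 4 ≤ c₀ * (n : ℝ) ^ (3 / 4 - η) := by
      calc (4 : ℝ) = c₀ * (4 * c₀⁻¹) := by field_simp
        _ ≤ _ := mul_le_mul_of_nonneg_left g2 hc₀.le
    have r10 : (2 : ℝ) ^ L ≤ 4 * c₀⁻¹ * (n : ℝ) ^ (3 / 4 + η) := by
      refine hm2.trans (le_of_eq ?_)
      rw [hV]
      ring
    exact hs.2 (CovLow_mono (hdet n L f s (wd s) hn g1 r9 r4 r6 r10 r8 r2 r3) hn hc c1 (by linarith))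
  have hcard : (((MS.SW f n).filter (fun s => ¬ CovLow f c ε s)).card : ℝ) ≤
      (((MS.SW f n).filter (fun s => ¬ MS.Reg f (3 / 4 - η) (3 / 4 + η) u η s)).card : ℝ) +
      (((MS.SW f n).filter (fun s => wd s ∈ BadL A Lam b0 L ((n : ℝ) ^ η))).card : ℝ) := by
    exact_mod_cast (Finset.card_le_card hsub).trans (Finset.card_union_le _ _)
  have hS : (0 : ℝ) ≤ ((MS.SW f n).card : ℝ) := Nat.cast_nonneg _
  have e5 : Real.exp (-(n : ℝ) ^ u) ≤ Real.exp (-(n : ℝ) ^ c) := by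
    rw [Real.exp_le_exp, neg_le_neg_iff]
    exact Real.rpow_le_rpow_of_exponent_le hnR cu
  have e6 : Real.exp (-(n : ℝ) ^ (η / 4)) ≤ Real.exp (-(n : ℝ) ^ c) := by
    rw [Real.exp_le_exp, neg_le_neg_iff]
    exact Real.rpow_le_rpow_of_exponent_le hnR cη
  have e7 : u⁻¹ + K ≤ c⁻¹ := by
    rw [le_inv_comm₀ (by positivity) hc]
    exact cK
  calc (((MS.SW f n).filter (fun s => ¬ CovLow f c ε s)).card : ℝ) ≤
      u⁻¹ * Real.exp (-(n : ℝ) ^ u) * ((MS.SW f n).card : ℝ) +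
        K * Real.exp (-(n : ℝ) ^ (η / 4)) * ((MS.SW f n).card : ℝ) := by
        refine hcard.trans (add_le_add hreg (hprob.trans ?_))
        exact mul_le_mul_of_nonneg_right hprob2 hS
    _ ≤ u⁻¹ * Real.exp (-(n : ℝ) ^ c) * ((MS.SW f n).card : ℝ) +
        K * Real.exp (-(n : ℝ) ^ c) * ((MS.SW f n).card : ℝ) := by gcongr
    _ = (u⁻¹ + K) * Real.exp (-(n : ℝ) ^ c) * ((MS.SW f n).card : ℝ) := by ring
    _ ≤ _ := by gcongr

end CovL
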