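import Pool.Agent.SDN.CrossDD
import Pool.Agent.CovL.Conn

/-!
The number of crossings of a scale in terms of the number of visited cells, for words that are not crowded at any scale.
-/

set_option autoImplicit false

namespace CovL

open Finset HexObs HexObs.SDN TS

/-- the crossings of the scale c -/
noncomputable def xx (dir : Bool) (t : List Bool) (c : ℕ) : ℝ := (XX (2 ^ c) (rws dir t) t.length : ℝ)

lemma xx_nonneg (dir : Bool) (t : List Bool) (c : ℕ) : 0 ≤ xx dir t c := Nat.cast_nonneg _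

/-- two crossings of the small scale for each one of the large scale -/
lemma xx_two (dir : Bool) (t : List Bool) (c : ℕ) : 2 * xx dir t (c + 1) ≤ xx dir t c := by
  have h := Crs.XX_eq (Crs.one_le_two_pow_int c) (Crs.stp_rws dir t) t.length
  have h2 : (2 : ℤ) * 2 ^ c = 2 ^ (c + 1) := by rw [pow_succ]; ring
  rw [h2] at h
  unfold xx
  have h3 : 2 * XX (2 ^ (c + 1)) (rws dir t) t.length ≤ XX (2 ^ c) (rws dir t) t.length := by
    omega
  exact_mod_cast h3

lemma xx_sum (dir : Bool) (t : List Bool) (c K : ℕ) : ∑ i ∈ range K, xx dir t (c + i) ≤ 2 * xx dir t c := by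
  have h : ∀ K c, ∑ i ∈ range K, xx dir t (c + i) ≤ 2 * xx dir t c := by
    intro K
    induction K with
    | zero =>
      intro c
      rw [Finset.sum_range_zero]
      have := xx_nonneg dir t c
      linarith
    | succ K ih =>
      intro c
      rw [Finset.sum_range_succ']
      have e : ∀ i, xx dir t (c + (i + 1)) = xx dir t (c + 1 + i) := fun i => by
        congr 1
        omega
      simp only [e, add_zero]
      have h1 := ih (c + 1)
      have h2 := xx_two dir t c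
      linarith
  exact h K c

lemma xx_top {dir : Bool} {t : List Bool} {L : ℕ} (ht : t ∈ WL L) {c : ℕ} (hc : L + 1 ≤ c) : xx dir t c = 0 := by
  unfold xx
  rw [XX_top ht hc, Nat.cast_zero]

/-- one step of the recursion -/
lemma xx_step {dir : Bool} {t : List Bool} {L c : ℕ} {A Y : ℝ} {Lam : ℕ} (ht : t ∈ WL L) (hc : 1 ≤ c)
    (hA : 0 ≤ A) (hY : 0 ≤ Y) (hL : 3 ≤ Lam)
    (H : ∀ m u e, Lf dir c t m u e → dbl (2 ^ (c - 1)) (lws t e 1 (m - 2)) ≤ Lam * m →
      (m : ℝ) ≤ A * nb c t ∨ (m : ℝ) ≤ Y) :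
    xx dir t c ≤ 2 * (1 + 2 / ((Lam : ℝ) - 2)) * xx dir t (c + 1) + (2 * A * nb c t + 2 * Y + 5) := by
  obtain ⟨m, u, e, h⟩ := lf_exists dir c t
  have h1 : xx dir t c ≤ 2 * xx dir t (c + 1) + 2 * ((m : ℝ) + 2) + 1 := by
    unfold xx
    exact_mod_cast Crs.XX_word_step h
  have hx := xx_nonneg dir t (c + 1)
  have hn : (0 : ℝ) ≤ nb c t := Nat.cast_nonneg _
  have hLr : (3 : ℝ) ≤ Lam := by exact_mod_cast hL
  have hL0 : (0 : ℝ) < (Lam : ℝ) - 2 := by linarith
  have hfr : 0 ≤ 2 / ((Lam : ℝ) - 2) := by positivity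
  have hAn : 0 ≤ A * nb c t := mul_nonneg hA hn
  by_cases hg : dbl (2 ^ (c - 1)) (lws t e 1 (m - 2)) ≤ Lam * m
  · have hm : (m : ℝ) ≤ A * nb c t + Y := by
      rcases H m u e h hg with h2 | h2 <;> linarith
    nlinarith [mul_nonneg hfr hx]
  · push Not at hg
    have h2 := (dbl_lws ht.1 hc h).trans (dbl_le ht hc h)
    have h3 : (dbl (2 ^ (c - 1)) (lws t e 1 (m - 2)) : ℝ) ≤
        2 * m + ∑ i ∈ range (L + 1), xx dir t (c + 1 + i) := by
      unfold xx
      exact_mod_cast h2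
    have h4 := xx_sum dir t (c + 1) (L + 1)
    have h5 : (Lam : ℝ) * m ≤ (dbl (2 ^ (c - 1)) (lws t e 1 (m - 2)) : ℝ) := by exact_mod_cast hg.le
    have h6 : ((Lam : ℝ) - 2) * m ≤ 2 * xx dir t (c + 1) := by nlinarith
    have h7 : (m : ℝ) ≤ 2 / ((Lam : ℝ) - 2) * xx dir t (c + 1) := by
      rw [div_mul_eq_mul_div, le_div_iff₀ hL0]
      linarith
    nlinarith

/-- **the crossings of a scale are bounded by the number of visited cells** -/
theorem xx_le {dir : Bool} {t : List Bool} {L b : ℕ} {A Y : ℝ} {Lam : ℕ} (ht : t ∈ WL L) (hb : 1 ≤ b) (hbL : b ≤ L + 1)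
    (hA : 0 ≤ A) (hY : 0 ≤ Y) (hL : 3 ≤ Lam)
    (H : ∀ c m u e, b ≤ c → c ≤ L + 2 → Lf dir c t m u e → dbl (2 ^ (c - 1)) (lws t e 1 (m - 2)) ≤ Lam * m →
      (m : ℝ) ≤ A * nb c t ∨ (m : ℝ) ≤ Y) :
    xx dir t b ≤ (1 + 2 / ((Lam : ℝ) - 2)) ^ (L + 1) *
      (18 * A * ((L : ℝ) + 1) * nb b t + 2 ^ (L + 1 - b) * (18 * A + 2 * Y + 5)) := by
  obtain ⟨rho, hrho⟩ : ∃ rho : ℝ, rho = 1 + 2 / ((Lam : ℝ) - 2) := ⟨_, rfl⟩
  rw [← hrho]
  have hLr : (3 : ℝ) ≤ Lam := by exact_mod_cast hL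
  have hL0 : (0 : ℝ) < (Lam : ℝ) - 2 := by linarith
  have hfr : 0 ≤ 2 / ((Lam : ℝ) - 2) := by positivity
  have hr1 : 1 ≤ rho := by rw [hrho]; linarith
  -- the iterated inequality
  have key : ∀ d : ℕ, d ≤ L + 1 - b → xx dir t (L + 1 - d) ≤
      rho ^ d * ∑ i ∈ range d, 2 ^ i * (2 * A * nb (L + 1 - d + i) t + 2 * Y + 5) := by
    intro d
    induction d with
    | zero =>
      intro _
      rw [Finset.sum_range_zero, mul_zero, xx_top ht (by omega)]
    | succ d ih =>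
      intro hd
      have h1 := ih (by omega)
      obtain ⟨c, hc⟩ : ∃ c, c = L + 1 - (d + 1) := ⟨_, rfl⟩
      have hc1 : L + 1 - d = c + 1 := by omega
      rw [hc1] at h1
      rw [← hc]
      have h2 := xx_step ht (c := c) (by omega) hA hY hL (fun m u e h3 h4 => H c m u e (by omega) (by omega) h3 h4)
      rw [← hrho] at h2
      have hpos : ∀ j : ℕ, 0 ≤ 2 * A * nb j t + 2 * Y + 5 := fun j => by
        have : (0 : ℝ) ≤ nb j t := Nat.cast_nonneg _
        positivity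
      have hS : 0 ≤ ∑ i ∈ range d, (2 : ℝ) ^ i * (2 * A * nb (c + 1 + i) t + 2 * Y + 5) :=
        Finset.sum_nonneg fun i _ => mul_nonneg (by positivity) (hpos _)
      have e1 : ∑ i ∈ range (d + 1), (2 : ℝ) ^ i * (2 * A * nb (c + i) t + 2 * Y + 5) =
          2 * ∑ i ∈ range d, (2 : ℝ) ^ i * (2 * A * nb (c + 1 + i) t + 2 * Y + 5) +
            (2 * A * nb c t + 2 * Y + 5) := by
        rw [Finset.sum_range_succ', Finset.mul_sum, pow_zero, one_mul, add_zero]
        congr 1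
        apply Finset.sum_congr rfl
        intro i _
        have : c + (i + 1) = c + 1 + i := by omega
        rw [this, pow_succ]
        ring
      have hp : 1 ≤ rho ^ (d + 1) := one_le_pow₀ hr1
      have h3 : 2 * A * nb c t + 2 * Y + 5 ≤ rho ^ (d + 1) * (2 * A * nb c t + 2 * Y + 5) :=
        le_mul_of_one_le_left (hpos c) hp
      have h4 : 2 * rho * xx dir t (c + 1) ≤ 2 * rho * (rho ^ d *
          ∑ i ∈ range d, (2 : ℝ) ^ i * (2 * A * nb (c + 1 + i) t + 2 * Y + 5)) :=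
        mul_le_mul_of_nonneg_left h1 (by positivity)
      rw [e1, mul_add, pow_succ]
      rw [pow_succ] at h3
      nlinarith
  have h1 := key (L + 1 - b) (le_refl _)
  have e0 : L + 1 - (L + 1 - b) = b := by omega
  rw [e0] at h1
  obtain ⟨K, hK⟩ : ∃ K, K = L + 1 - b := ⟨_, rfl⟩
  rw [← hK] at h1 ⊢
  refine h1.trans ?_
  have hnb : (0 : ℝ) ≤ nb b t := Nat.cast_nonneg _
  have hKL : (K : ℝ) ≤ (L : ℝ) + 1 := by
    have : K ≤ L + 1 := by omega
    exact_mod_cast this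
  have h2 : ∑ i ∈ range K, (2 : ℝ) ^ i * (2 * A * nb (b + i) t + 2 * Y + 5) ≤
      18 * A * ((L : ℝ) + 1) * nb b t + 2 ^ K * (18 * A + 2 * Y + 5) := by
    have h3 : ∀ i ∈ range K, (2 : ℝ) ^ i * (2 * A * nb (b + i) t + 2 * Y + 5) ≤
        18 * A * nb b t + 2 ^ i * (18 * A + 2 * Y + 5) := by
      intro i _
      have h4 : (2 : ℝ) ^ i * nb (b + i) t ≤ 9 * nb b t + 9 * 2 ^ i := by exact_mod_cast nb_conn b i t
      have h5 : 2 * A * ((2 : ℝ) ^ i * nb (b + i) t) ≤ 2 * A * (9 * nb b t + 9 * 2 ^ i) :=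
        mul_le_mul_of_nonneg_left h4 (by positivity)
      nlinarith
    refine (Finset.sum_le_sum h3).trans ?_
    rw [Finset.sum_add_distrib, Finset.sum_const, Finset.card_range, nsmul_eq_mul, ← Finset.sum_mul]
    have h6 : ∑ i ∈ range K, (2 : ℝ) ^ i ≤ 2 ^ K := by
      rw [geom_sum_eq (by norm_num)]
      have : (0 : ℝ) < 2 ^ K := by positivity
      have e : (2 : ℝ) - 1 = 1 := by norm_num
      rw [e, div_one]
      linarith
    have h7 : (K : ℝ) * (18 * A * nb b t) ≤ ((L : ℝ) + 1) * (18 * A * nb b t) :=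
      mul_le_mul_of_nonneg_right hKL (by positivity)
    have h8 : (∑ i ∈ range K, (2 : ℝ) ^ i) * (18 * A + 2 * Y + 5) ≤ 2 ^ K * (18 * A + 2 * Y + 5) :=
      mul_le_mul_of_nonneg_right h6 (by positivity)
    nlinarith
  have h9 : rho ^ K ≤ rho ^ (L + 1) := pow_le_pow_right₀ hr1 (by omega)
  have h10 : 0 ≤ 18 * A * ((L : ℝ) + 1) * nb b t + 2 ^ K * (18 * A + 2 * Y + 5) := by positivity
  calc rho ^ K * ∑ i ∈ range K, (2 : ℝ) ^ i * (2 * A * nb (b + i) t + 2 * Y + 5) ≤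
      rho ^ K * (18 * A * ((L : ℝ) + 1) * nb b t + 2 ^ K * (18 * A + 2 * Y + 5)) :=
        mul_le_mul_of_nonneg_left h2 (by positivity)
    _ ≤ _ := mul_le_mul_of_nonneg_right h9 h10

end CovL
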