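import Pool.Agent.SDN.EncBall
import Pool.Agent.CovL.XRec

/-!
Cells and balls; blocks of steps and crossings.
-/

set_option autoImplicit false

namespace CovL

open Finset HexObs HexObs.SDN TS

/-! ### Levels and norms -/

lemma lvl_sub (dir : Bool) (v w : Pt) : lvl dir v - lvl dir w = lvl dir (v - w) := by
  unfold lvl
  rw [ip_sub_left]

lemma two_nrm (v : Pt) : 2 * nrm v ≤ lvl false v ^ 2 + lvl true v ^ 2 := by
  simp only [lvl, hd, ip, nrm, up, Bool.false_eq_true, if_false, if_true]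
  nlinarith [sq_nonneg (v.1 + v.2), sq_nonneg v.1, sq_nonneg v.2]

/-- a large displacement is large in one of the two directions -/
lemma exists_dir {v : Pt} {D : ℝ} (hD : 0 ≤ D) (h : D ^ 2 ≤ ((nrm v : ℤ) : ℝ)) :
    ∃ dir : Bool, D ≤ |((lvl dir v : ℤ) : ℝ)| := by
  have h1 : (2 : ℝ) * ((nrm v : ℤ) : ℝ) ≤ ((lvl false v : ℤ) : ℝ) ^ 2 + ((lvl true v : ℤ) : ℝ) ^ 2 := by
    exact_mod_cast two_nrm v
  by_contra hcon
  push Not at hcon
  have h2 := hcon false
  have h3 := hcon true
  have h4 : ((lvl false v : ℤ) : ℝ) ^ 2 < D ^ 2 := by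
    rw [← sq_abs]
    exact pow_lt_pow_left₀ h2 (abs_nonneg _) two_ne_zero
  have h5 : ((lvl true v : ℤ) : ℝ) ^ 2 < D ^ 2 := by
    rw [← sq_abs]
    exact pow_lt_pow_left₀ h3 (abs_nonneg _) two_ne_zero
  linarith

lemma row_low (dir : Bool) (v w : Pt) : |lvl dir v - lvl dir w| ≤ 3 * |row dir v - row dir w| + 2 := by
  unfold row
  generalize lvl dir v = x
  generalize lvl dir w = y
  rcases abs_cases (x - y) with h1 | h1 <;> rcases abs_cases (x / 3 - y / 3) with h2 | h2 <;> omega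

lemma row_up (dir : Bool) (v w : Pt) : 3 * |row dir v - row dir w| ≤ |lvl dir v - lvl dir w| + 2 := by
  unfold row
  generalize lvl dir v = x
  generalize lvl dir w = y
  rcases abs_cases (x - y) with h1 | h1 <;> rcases abs_cases (x / 3 - y / 3) with h2 | h2 <;> omega

lemma abs_lvl_le {dir : Bool} {v : Pt} {D : ℝ} (hD : 0 ≤ D) (h : ((nrm v : ℤ) : ℝ) ≤ D ^ 2) :
    |((lvl dir v : ℤ) : ℝ)| ≤ 2 * D := by
  have h1 : ((lvl dir v : ℤ) : ℝ) ^ 2 ≤ 4 * ((nrm v : ℤ) : ℝ) := by exact_mod_cast EncBall.lvl_sq dir v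
  apply abs_le_of_sq_le_sq _ (by positivity)
  nlinarith

/-! ### The number of visited cells and the extent -/

/-- integer points between two values -/
lemma card_range_le {f : ℕ → ℤ} (hf : ∀ k, |f (k + 1) - f k| ≤ 1) (n k : ℕ) (hk : k ≤ n) :
    |f k - f 0| + 1 ≤ ((range (n + 1)).image f).card := by
  have key : ∀ a b : ℤ, a ≤ b → (∀ v, a ≤ v → v ≤ b → ∃ j, j ≤ n ∧ f j = v) →
      b - a + 1 ≤ ((range (n + 1)).image f).card := by
    intro a b hab h
    have hsub : Finset.Icc a b ⊆ (range (n + 1)).image f := by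
      intro v hv
      rw [Finset.mem_Icc] at hv
      obtain ⟨j, hj, hj2⟩ := h v hv.1 hv.2
      rw [Finset.mem_image]
      exact ⟨j, Finset.mem_range.2 (by omega), hj2⟩
    have := Finset.card_le_card hsub
    rw [Int.card_Icc] at this
    omega
  rcases le_total (f 0) (f k) with h | h
  · have h1 := key (f 0) (f k) h fun v h1 h2 => by
      obtain ⟨j, -, j2, j3⟩ := ivt_up hf (Nat.zero_le k) h1 h2
      exact ⟨j, by omega, j3⟩
    rw [abs_of_nonneg (by omega)]
    omega
  · have h1 := key (f k) (f 0) h fun v h1 h2 => by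
      obtain ⟨j, -, j2, j3⟩ := ivt_down hf (Nat.zero_le k) h2 h1
      exact ⟨j, by omega, j3⟩
    rw [abs_of_nonpos (by omega)]
    omega

/-- the number of visited cells is at least the extent -/
theorem nb_ext (dir : Bool) (b : ℕ) (t : List Bool) {k : ℕ} (hk : k ≤ t.length) :
    |rws dir t k| ≤ nb b t * 2 ^ b := by
  have h1 := card_range_le (f := fun k => row dir (vx oo up t k) / 2 ^ b) (fun k => cell_step dir b t k) t.length k hk
  have h2 : (((range (t.length + 1)).image fun k => row dir (vx oo up t k) / 2 ^ b).card : ℤ) ≤ nb b t := by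
    unfold nb cells
    have e : ((range (t.length + 1)).image fun k => row dir (vx oo up t k) / 2 ^ b) =
        ((range (t.length + 1)).image fun i => cell b (vx oo up t i)).image fun s => if dir then s.2 else s.1 := by
      rw [Finset.image_image]
      apply Finset.image_congr
      intro i _
      cases dir <;> rfl
    rw [e]
    exact_mod_cast Finset.card_image_le
  have h0 : row dir (vx oo up t 0) = 0 := rws_zero dir t
  simp only [h0, Int.zero_ediv, sub_zero] at h1
  have h3 : |row dir (vx oo up t k) / 2 ^ b| + 1 ≤ nb b t := h1.trans h2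
  have hR : (0 : ℤ) < 2 ^ b := by positivity
  show |row dir (vx oo up t k)| ≤ _
  generalize row dir (vx oo up t k) = x at *
  generalize (2 : ℤ) ^ b = R at *
  have e1 := Int.emod_add_mul_ediv x R
  have e2 := Int.emod_nonneg x (show R ≠ 0 by omega)
  have e3 := Int.emod_lt_of_pos x hR
  have h4 : |x| ≤ (|x / R| + 1) * R := by
    rw [abs_le]
    rcases abs_cases (x / R) with h | h
    · rw [h.1]
      constructor
      · nlinarith
      · nlinarith
    · rw [h.1]
      constructor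
      · nlinarith
      · nlinarith
  exact h4.trans (mul_le_mul_of_nonneg_right h3 (by omega))

/-! ### Cells and balls -/

section ball

variable {P : ℕ → ℂ} {t : List Bool} {n : ℕ}

/-- the positions of the walk and of the word -/
def Pos (P : ℕ → ℂ) (t : List Bool) (n : ℕ) : Prop :=
  t.length = n ∧ ∀ i j, i ≤ n → j ≤ n → ‖P i - P j‖ ^ 2 = ((nrm (vx oo up t i - vx oo up t j) : ℤ) : ℝ)

/-- two points at distance at most `2 r` lie in near cells -/
lemma near_cell (h : Pos P t n) {i j : ℕ} (hi : i ≤ n) (hj : j ≤ n) {b : ℕ} (hd : ‖P i - P j‖ ≤ 2 * 2 ^ b)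
    (dir : Bool) : |row dir (vx oo up t i) / 2 ^ b - row dir (vx oo up t j) / 2 ^ b| ≤ 3 := by
  have h1 := h.2 i j hi hj
  have h2 : ((nrm (vx oo up t i - vx oo up t j) : ℤ) : ℝ) ≤ (2 * 2 ^ b) ^ 2 := by
    rw [← h1]
    exact pow_le_pow_left₀ (norm_nonneg _) hd 2
  have h3 := abs_lvl_le (dir := dir) (by positivity : (0 : ℝ) ≤ 2 * 2 ^ b) h2
  rw [← lvl_sub] at h3
  have h4 : |lvl dir (vx oo up t i) - lvl dir (vx oo up t j)| ≤ 2 * (2 * 2 ^ b) := by exact_mod_cast h3
  have h5 := row_up dir (vx oo up t i) (vx oo up t j)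
  have hR : (1 : ℤ) ≤ 2 ^ b := by exact_mod_cast Nat.one_le_two_pow
  generalize row dir (vx oo up t i) = x at *
  generalize row dir (vx oo up t j) = y at *
  generalize (2 : ℤ) ^ b = R at *
  have h6 : 3 * |x - y| ≤ 6 * R := by omega
  have h7 : |x - y| ≤ 2 * R := by omega
  rw [abs_le] at h7 ⊢
  constructor
  · have h8 : y ≤ x + 2 * R := by omega
    have h9 : y / R ≤ (x + 2 * R) / R := Int.ediv_le_ediv (by omega) h8
    rw [Int.add_mul_ediv_right _ _ (by omega)] at h9
    omega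
  · have h8 : x ≤ y + 2 * R := by omega
    have h9 : x / R ≤ (y + 2 * R) / R := Int.ediv_le_ediv (by omega) h8
    rw [Int.add_mul_ediv_right _ _ (by omega)] at h9
    omega

/-- **cells and balls** -/
theorem nb_le_cover (h : Pos P t n) {b : ℕ} {r : ℝ} (hr : r ≤ 2 ^ b) {F : Finset ℂ}
    (hF : ∀ k, k ≤ n → ∃ z ∈ F, ‖P k - z‖ ≤ r) : nb b t ≤ 49 * F.card := by
  classical
  obtain ⟨z0, -, -⟩ := hF 0 (Nat.zero_le n)
  choose! g hg1 hg2 using hF
  -- a time for every cell
  have hex : ∀ Q ∈ cells b t, ∃ i, i ≤ n ∧ cell b (vx oo up t i) = Q := by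
    intro Q hQ
    unfold cells at hQ
    rw [Finset.mem_image] at hQ
    obtain ⟨i, hi, hi2⟩ := hQ
    rw [Finset.mem_range, h.1] at hi
    exact ⟨i, by omega, hi2⟩
  choose! τ hτ1 hτ2 using hex
  unfold nb
  apply Finset.card_le_mul_card_image_of_maps_to (f := fun Q => g (τ Q)) (fun Q hQ => hg1 _ (hτ1 Q hQ))
  intro z _
  by_cases hne : ((cells b t).filter fun Q => g (τ Q) = z) = ∅
  · rw [hne]
    simp
  obtain ⟨Q0, hQ0⟩ := Finset.nonempty_iff_ne_empty.2 hne
  rw [Finset.mem_filter] at hQ0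
  have hsub : (cells b t).filter (fun Q => g (τ Q) = z) ⊆
      (Finset.Icc (Q0.1 - 3) (Q0.1 + 3)) ×ˢ (Finset.Icc (Q0.2 - 3) (Q0.2 + 3)) := by
    intro Q hQ
    rw [Finset.mem_filter] at hQ
    have a1 := hg2 _ (hτ1 Q hQ.1)
    have a2 := hg2 _ (hτ1 Q0 hQ0.1)
    rw [hQ.2] at a1
    rw [hQ0.2] at a2
    have a3 : ‖P (τ Q) - P (τ Q0)‖ ≤ 2 * 2 ^ b := by
      have : P (τ Q) - P (τ Q0) = (P (τ Q) - z) - (P (τ Q0) - z) := by ring
      rw [this]
      refine (norm_sub_le _ _).trans ?_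
      linarith
    have b1 := near_cell h (hτ1 Q hQ.1) (hτ1 Q0 hQ0.1) a3 false
    have b2 := near_cell h (hτ1 Q hQ.1) (hτ1 Q0 hQ0.1) a3 true
    have c1 := hτ2 Q hQ.1
    have c2 := hτ2 Q0 hQ0.1
    unfold cell at c1 c2
    rw [← c1, ← c2, Finset.mem_product, Finset.mem_Icc, Finset.mem_Icc]
    rw [abs_le] at b1 b2
    simp only
    refine ⟨⟨?_, ?_⟩, ⟨?_, ?_⟩⟩ <;> omega
  refine (Finset.card_le_card hsub).trans ?_
  rw [Finset.card_product, Int.card_Icc, Int.card_Icc]
  have e1 : (Q0.1 + 3 + 1 - (Q0.1 - 3)).toNat = 7 := by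
    have : Q0.1 + 3 + 1 - (Q0.1 - 3) = 7 := by ring
    rw [this]
    rfl
  have e2 : (Q0.2 + 3 + 1 - (Q0.2 - 3)).toNat = 7 := by
    have : Q0.2 + 3 + 1 - (Q0.2 - 3) = 7 := by ring
    rw [this]
    rfl
  rw [e1, e2]

/-- a large displacement is a large displacement of a row -/
lemma row_move (h : Pos P t n) {i j : ℕ} (hi : i ≤ n) (hj : j ≤ n) {D : ℝ} (hD : 0 ≤ D) (hd : D ≤ ‖P i - P j‖) :
    ∃ dir : Bool, D ≤ 3 * |((rws dir t i - rws dir t j : ℤ) : ℝ)| + 2 := by
  have h1 := h.2 i j hi hj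
  have h2 : D ^ 2 ≤ ((nrm (vx oo up t i - vx oo up t j) : ℤ) : ℝ) := by
    rw [← h1]
    exact pow_le_pow_left₀ hD hd 2
  obtain ⟨dir, h3⟩ := exists_dir hD h2
  refine ⟨dir, h3.trans ?_⟩
  rw [← lvl_sub]
  have h4 := row_low dir (vx oo up t i) (vx oo up t j)
  unfold rws
  exact_mod_cast h4

/-- **blocks of steps and crossings** -/
theorem blocks_le (h : Pos P t n) {b ℓ M : ℕ} (hM : M * ℓ ≤ n)
    (hB : ∀ i, i < M → ∃ k, i * ℓ ≤ k ∧ k ≤ (i + 1) * ℓ ∧ 6 * 2 ^ b ≤ ‖P k - P (i * ℓ)‖) :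
    (M : ℝ) ≤ xx false t b + xx true t b := by
  classical
  choose! k hk1 hk2 hk3 using hB
  have hle : ∀ i, i < M → (i + 1) * ℓ ≤ n := fun i hi =>
    (Nat.mul_le_mul_right ℓ hi).trans hM
  have hdir : ∀ i, i < M → ∃ dir : Bool, 2 * (2 : ℤ) ^ b - 1 ≤ |rws dir t (k i) - rws dir t (i * ℓ)| := by
    intro i hi
    have h1 := hle i hi
    have h2 := hk1 i hi
    have h3 := hk2 i hi
    obtain ⟨dir, hd⟩ := row_move h (by omega : k i ≤ n) (by omega : i * ℓ ≤ n) (by positivity) (hk3 i hi)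
    refine ⟨dir, ?_⟩
    have h4 : (6 : ℤ) * 2 ^ b ≤ 3 * |rws dir t (k i) - rws dir t (i * ℓ)| + 2 := by exact_mod_cast hd
    omega
  choose! d hd using hdir
  have key : ∀ dir : Bool, ((range M).filter fun i => d i = dir).card ≤ XX (2 ^ b) (rws dir t) t.length := by
    intro dir
    apply Crs.disj_le (Crs.one_le_two_pow_int b) (Crs.stp_rws dir t) _ (fun i => i * ℓ) k
    · intro i hi
      rw [Finset.mem_filter, Finset.mem_range] at hi
      have h1 := hle i hi.1
      have h2 := hk1 i hi.1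
      have h3 := hk2 i hi.1
      rw [h.1]
      exact ⟨h2, by omega⟩
    · intro i hi
      rw [Finset.mem_filter, Finset.mem_range] at hi
      have := hd i hi.1
      rw [hi.2] at this
      exact this
    · intro i hi j hj hij
      rw [Finset.mem_filter, Finset.mem_range] at hi hj
      rcases lt_or_gt_of_ne hij with h5 | h5
      · left
        have h6 := hk2 i hi.1
        have h7 : (i + 1) * ℓ ≤ j * ℓ := Nat.mul_le_mul_right ℓ h5
        exact h6.trans h7
      · right
        have h6 := hk2 j hj.1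
        have h7 : (j + 1) * ℓ ≤ i * ℓ := Nat.mul_le_mul_right ℓ h5
        exact h6.trans h7
  have h1 : (range M).card = ((range M).filter fun i => d i = false).card +
      ((range M).filter fun i => d i = true).card := by
    rw [← Finset.card_union_of_disjoint]
    · congr 1
      ext i
      simp only [Finset.mem_union, Finset.mem_filter]
      rcases Bool.eq_false_or_eq_true (d i) with h | h <;> simp [h]
    · rw [Finset.disjoint_filter]
      intro i _ h1 h2
      rw [h1] at h2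
      exact Bool.false_ne_true h2
  rw [Finset.card_range] at h1
  unfold xx
  have h2 := key false
  have h3 := key true
  have h4 : M ≤ XX (2 ^ b) (rws false t) t.length + XX (2 ^ b) (rws true t) t.length := by omega
  exact_mod_cast h4

end ball

end CovL
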