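import Pool.Agent.CovL.Words
import Pool.Agent.MS.Stmt

/-!
# Lower bound of the covering number at all scales
-/

set_option autoImplicit false

namespace CovL

open Finset HexObs HexObs.SDN TS

/-! ### Deterministic part -/

/-- the number of the blocks in terms of the number of the visited cells -/
theorem count_det {P : ℕ → ℂ} {t : List Bool} {n : ℕ} (h : Pos P t n) {L b0 Lam : ℕ} {A Y D : ℝ} (ht : t ∈ WL L)
    (hgood : t ∉ BadL A Lam b0 L Y) (hA : 1 ≤ A) (hY : 1 ≤ Y) (hLam : 3 ≤ Lam) (hb0 : 1 ≤ b0) {b ℓ M : ℕ}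
    (hb : b0 ≤ b) (hbL : b ≤ L + 1) (hM : M * ℓ ≤ n)
    (hB : ∀ i, i < M → ∃ k, i * ℓ ≤ k ∧ k ≤ (i + 1) * ℓ ∧ 6 * 2 ^ b ≤ ‖P k - P (i * ℓ)‖)
    (hD : 4 ≤ D) (hD2 : ∃ k, k ≤ n ∧ D ≤ ‖P k - P 0‖) :
    (M : ℝ) ≤ 2 * (1 + 2 / ((Lam : ℝ) - 2)) ^ (L + 1) * A * Y * (18 * ((L : ℝ) + 1) + 150 * 2 ^ (L + 1) / D) *
      nb b t := by
  obtain ⟨rho, hrho⟩ : ∃ rho : ℝ, rho = (1 + 2 / ((Lam : ℝ) - 2)) ^ (L + 1) := ⟨_, rfl⟩
  have hLr : (3 : ℝ) ≤ Lam := by exact_mod_cast hLam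
  have hL0 : (0 : ℝ) < (Lam : ℝ) - 2 := by linarith
  have hr1 : 1 ≤ rho := by
    rw [hrho]
    refine one_le_pow₀ ?_
    have : 0 ≤ 2 / ((Lam : ℝ) - 2) := by positivity
    linarith
  have hA0 : 0 ≤ A := by linarith
  have hY0 : 0 ≤ Y := by linarith
  have h1 := blocks_le h hM hB
  have h2 : ∀ dir : Bool, xx dir t b ≤ rho * (18 * A * ((L : ℝ) + 1) * nb b t + 2 ^ (L + 1 - b) * (18 * A + 2 * Y + 5)) := by
    intro dir
    rw [hrho]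
    exact xx_le ht (by omega) hbL hA0 hY0 hLam fun c m u e h3 h4 h5 h6 =>
      good_H ht hgood dir c m u e (by omega) h4 h5 h6
  -- the extent
  obtain ⟨k, hk, hk2⟩ := hD2
  obtain ⟨dir, hdir⟩ := row_move h hk (Nat.zero_le n) (by linarith : 0 ≤ D) hk2
  rw [rws_zero, sub_zero] at hdir
  have h3 : |((rws dir t k : ℤ) : ℝ)| ≤ (nb b t : ℝ) * 2 ^ b := by
    have := nb_ext dir b t (k := k) (by rw [h.1]; exact hk)
    exact_mod_cast this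
  have hN0 : (0 : ℝ) ≤ nb b t := Nat.cast_nonneg _
  have h2b : (0 : ℝ) < 2 ^ b := by positivity
  have h4 : D ≤ 6 * ((nb b t : ℝ) * 2 ^ b) := by linarith
  have h5 : (2 : ℝ) ^ (L + 1 - b) ≤ 6 * 2 ^ (L + 1) / D * nb b t := by
    have e : (2 : ℝ) ^ (L + 1 - b) * 2 ^ b = 2 ^ (L + 1) := by
      rw [← pow_add]
      congr 1
      omega
    have hD0 : 0 < D := by linarith
    have h6 : (2 : ℝ) ^ (L + 1 - b) * D ≤ 6 * 2 ^ (L + 1) * nb b t := by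
      calc (2 : ℝ) ^ (L + 1 - b) * D ≤ 2 ^ (L + 1 - b) * (6 * ((nb b t : ℝ) * 2 ^ b)) :=
            mul_le_mul_of_nonneg_left h4 (by positivity)
        _ = 6 * (2 ^ (L + 1 - b) * 2 ^ b) * nb b t := by ring
        _ = _ := by rw [e]
    rw [div_mul_eq_mul_div, le_div_iff₀ hD0]
    exact h6
  have h7 : 18 * A + 2 * Y + 5 ≤ 25 * (A * Y) := by nlinarith [mul_nonneg (sub_nonneg.2 hA) (sub_nonneg.2 hY)]
  have h8 : 18 * A * ((L : ℝ) + 1) * nb b t + 2 ^ (L + 1 - b) * (18 * A + 2 * Y + 5) ≤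
      A * Y * (18 * ((L : ℝ) + 1) + 150 * 2 ^ (L + 1) / D) * nb b t := by
    have g1 : 2 ^ (L + 1 - b) * (18 * A + 2 * Y + 5) ≤ (6 * 2 ^ (L + 1) / D * nb b t) * (25 * (A * Y)) :=
      mul_le_mul h5 h7 (by positivity) (by positivity)
    have g2 : 18 * A * ((L : ℝ) + 1) * nb b t ≤ 18 * (A * Y) * ((L : ℝ) + 1) * nb b t := by
      have : A ≤ A * Y := by nlinarith
      have h9 : 0 ≤ 18 * ((L : ℝ) + 1) * nb b t := by positivity
      nlinarith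
    calc _ ≤ 18 * (A * Y) * ((L : ℝ) + 1) * nb b t + (6 * 2 ^ (L + 1) / D * nb b t) * (25 * (A * Y)) := by linarith
      _ = _ := by ring
  have h9 := h2 false
  have h10 := h2 true
  have h11 : rho * (18 * A * ((L : ℝ) + 1) * nb b t + 2 ^ (L + 1 - b) * (18 * A + 2 * Y + 5)) ≤
      rho * (A * Y * (18 * ((L : ℝ) + 1) + 150 * 2 ^ (L + 1) / D) * nb b t) :=
    mul_le_mul_of_nonneg_left h8 (by linarith)
  rw [← hrho]
  calc (M : ℝ) ≤ 2 * (rho * (A * Y * (18 * ((L : ℝ) + 1) + 150 * 2 ^ (L + 1) / D) * nb b t)) := by linarith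
    _ = _ := by ring

/-- the covering number is large on all scales -/
def CovLow (f : ℕ → Fin 3 → ℂ) (c ε : ℝ) {n : ℕ} (s : Fin n → Fin 3) : Prop :=
  ∀ r : ℝ, 1 ≤ r → r ≤ (n : ℝ) ^ (3 / 4 : ℝ) → ∀ F : Finset ℂ,
    (∀ k, k ≤ n → ∃ z ∈ F, ‖MS.pw f s k - z‖ ≤ r) → c * (n : ℝ) ^ (1 - ε) / r ^ (4 / 3 : ℝ) ≤ F.card

/-- powers of two near a number -/
lemma pow_near {x : ℝ} (hx : 1 ≤ x) : ∃ m : ℕ, x < 2 ^ (m + 1) ∧ (2 : ℝ) ^ (m + 1) ≤ 2 * x := by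
  obtain ⟨m, h1, h2⟩ := exists_nat_pow_near hx (by norm_num : (1 : ℝ) < 2)
  exact ⟨m, h2, by rw [pow_succ]; linarith⟩

/-- the length of the blocks -/
lemma block_len {R c₀ a : ℝ} (hR : 1 ≤ R) (hc : 0 < c₀) (hc1 : c₀ ≤ 1) (ha : 0 < a) (ha1 : a ≤ 1) :
    ∃ ℓ : ℕ, R ≤ ℓ ∧ 6 * R ≤ c₀ * (ℓ : ℝ) ^ a ∧ (ℓ : ℝ) ≤ 2 * (6 * R / c₀) ^ (1 / a) := by
  obtain ⟨y, hy⟩ : ∃ y : ℝ, y = 6 * R / c₀ := ⟨_, rfl⟩
  have hy1 : 6 * R ≤ y := by
    rw [hy, le_div_iff₀ hc]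
    nlinarith
  have hy0 : 1 ≤ y := by linarith
  have hz1 : y ≤ y ^ (1 / a) := by
    have : (1 : ℝ) ≤ 1 / a := by rw [le_div_iff₀ ha]; linarith
    calc y = y ^ (1 : ℝ) := (Real.rpow_one y).symm
      _ ≤ _ := Real.rpow_le_rpow_of_exponent_le hy0 this
  refine ⟨⌈y ^ (1 / a)⌉₊, ?_, ?_, ?_⟩
  · have := Nat.le_ceil (y ^ (1 / a))
    linarith
  · have h1 : y ≤ (⌈y ^ (1 / a)⌉₊ : ℝ) ^ a := by
      calc y = (y ^ (1 / a)) ^ a := by
            rw [← Real.rpow_mul (by linarith), one_div, inv_mul_cancel₀ ha.ne', Real.rpow_one]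
        _ ≤ _ := Real.rpow_le_rpow (by positivity) (Nat.le_ceil _) ha.le
    calc 6 * R = c₀ * y := by rw [hy]; field_simp
      _ ≤ _ := mul_le_mul_of_nonneg_left h1 hc.le
  · rw [← hy]
    have := Nat.ceil_lt_add_one (show 0 ≤ y ^ (1 / a) by positivity)
    linarith

lemma nb_pos (b : ℕ) (t : List Bool) : 1 ≤ nb b t := by
  unfold nb cells
  exact Finset.card_pos.2 ⟨_, Finset.mem_image_of_mem _ (Finset.mem_range.2 (Nat.succ_pos _))⟩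

/-- **regular walks whose word is not bad have large covering numbers** -/
theorem cover_reg {η c₀ A : ℝ} {Lam b0 : ℕ} (hη : 0 < η) (hη8 : η ≤ 1 / 8) (hc : 0 < c₀) (hc1 : c₀ ≤ 1)
    (hA : 1 ≤ A) (hb0 : 1 ≤ b0) (hLam : 3 ≤ Lam) (hLam2 : 1 + 2 / ((Lam : ℝ) - 2) ≤ (2 : ℝ) ^ η) :
    ∃ c : ℝ, 0 < c ∧ ∀ (n L : ℕ) (f : ℕ → Fin 3 → ℂ) (s : Fin n → Fin 3) (t : List Bool), 1 ≤ n →
      (2 : ℝ) ^ b0 ≤ (n : ℝ) ^ η → 4 ≤ c₀ * (n : ℝ) ^ (3 / 4 - η) → Pos (MS.pw f s) t n → t ∈ WL L →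
      (2 : ℝ) ^ L ≤ 4 * c₀⁻¹ * (n : ℝ) ^ (3 / 4 + η) → (n : ℝ) ^ (3 / 4 : ℝ) ≤ 2 ^ L →
      t ∉ BadL A Lam b0 L ((n : ℝ) ^ η) → MS.Reg f (3 / 4 - η) (3 / 4 + η) c₀ η s → CovLow f c (9 * η) s := by
  have hln : 0 < Real.log 2 := Real.log_pos (by norm_num)
  obtain ⟨K2, hK2⟩ : ∃ K2 : ℝ, K2 = 16 * c₀⁻¹ * A * (144 * (η * Real.log 2)⁻¹ * c₀⁻¹ + 1200 * (c₀⁻¹ * c₀⁻¹)) :=
    ⟨_, rfl⟩
  obtain ⟨K3, hK3⟩ : ∃ K3 : ℝ, K3 = 2 * (12 / c₀) ^ (3 : ℝ) := ⟨_, rfl⟩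
  have hA0 : 0 < A := by linarith
  have hci : 1 ≤ c₀⁻¹ := (one_le_inv₀ hc).2 hc1
  have hK2p : 0 < K2 := by rw [hK2]; positivity
  have hK3p : 0 < K3 := by rw [hK3]; positivity
  refine ⟨(49 * K3 * (K2 + 1))⁻¹, by positivity, ?_⟩
  intro n L f s t hn hnb h4 hPos ht hL1 hL2 hbad hreg r hr1 hr2 F hF
  obtain ⟨x, hx⟩ : ∃ x : ℝ, x = (n : ℝ) := ⟨_, rfl⟩
  have hx1 : 1 ≤ x := by rw [hx]; exact_mod_cast hn
  have hx0 : 0 < x := by linarith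
  rw [← hx] at hnb h4 hL1 hL2 hbad hr2 ⊢
  have hxη : 1 ≤ x ^ η := Real.one_le_rpow hx1 hη.le
  -- the box
  obtain ⟨G, hG⟩ : ∃ G : ℝ, G = ((2 : ℝ) ^ (L + 1)) ^ η := ⟨_, rfl⟩
  have hLL : (2 : ℝ) ^ (L + 1) ≤ 8 * c₀⁻¹ * x ^ (3 / 4 + η) := by
    rw [pow_succ]
    linarith
  have hG1 : G ≤ 8 * c₀⁻¹ * x ^ η := by
    have g1 : G ≤ (8 * c₀⁻¹ * x ^ (3 / 4 + η)) ^ η := by
      rw [hG]
      exact Real.rpow_le_rpow (by positivity) hLL hη.le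
    have g2 : (8 * c₀⁻¹ * x ^ (3 / 4 + η)) ^ η = (8 * c₀⁻¹) ^ η * (x ^ (3 / 4 + η)) ^ η :=
      Real.mul_rpow (by positivity) (by positivity)
    have g3 : (8 * c₀⁻¹) ^ η ≤ 8 * c₀⁻¹ := by
      calc (8 * c₀⁻¹) ^ η ≤ (8 * c₀⁻¹) ^ (1 : ℝ) := Real.rpow_le_rpow_of_exponent_le (by linarith) (by linarith)
        _ = _ := Real.rpow_one _
    have g4 : (x ^ (3 / 4 + η)) ^ η ≤ x ^ η := by
      apply Real.rpow_le_rpow (by positivity) _ hη.le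
      calc x ^ (3 / 4 + η) ≤ x ^ (1 : ℝ) := Real.rpow_le_rpow_of_exponent_le hx1 (by linarith)
        _ = x := Real.rpow_one _
    calc G ≤ (8 * c₀⁻¹) ^ η * (x ^ (3 / 4 + η)) ^ η := by rw [← g2]; exact g1
      _ ≤ _ := mul_le_mul g3 g4 (by positivity) (by positivity)
  have hG2 : (L : ℝ) + 1 ≤ (η * Real.log 2)⁻¹ * G := by
    have g1 : G = Real.exp (η * Real.log 2 * ((L : ℝ) + 1)) := by
      rw [hG, ← Real.rpow_natCast, ← Real.rpow_mul (by norm_num), Real.rpow_def_of_pos (by norm_num)]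
      congr 1
      push_cast
      ring
    have g2 := Real.add_one_le_exp (η * Real.log 2 * ((L : ℝ) + 1))
    rw [← g1] at g2
    have g3 : 0 < η * Real.log 2 := by positivity
    rw [inv_mul_eq_div, le_div_iff₀ g3]
    nlinarith
  have hrho : (1 + 2 / ((Lam : ℝ) - 2)) ^ (L + 1) ≤ G := by
    have hLr : (3 : ℝ) ≤ Lam := by exact_mod_cast hLam
    have hL0 : (0 : ℝ) < (Lam : ℝ) - 2 := by linarith
    calc (1 + 2 / ((Lam : ℝ) - 2)) ^ (L + 1) ≤ ((2 : ℝ) ^ η) ^ (L + 1) := pow_le_pow_left₀ (by positivity) hLam2 _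
      _ = G := by
        rw [hG, ← Real.rpow_natCast ((2 : ℝ) ^ η), ← Real.rpow_mul (by norm_num), mul_comm η,
          Real.rpow_mul (by norm_num), Real.rpow_natCast]
  obtain ⟨D, hDd⟩ : ∃ D : ℝ, D = c₀ * x ^ (3 / 4 - η) := ⟨_, rfl⟩
  rw [← hDd] at h4
  have hD0 : 0 < D := by linarith
  have hLD : 2 ^ (L + 1) / D ≤ 8 * (c₀⁻¹ * c₀⁻¹) * x ^ (2 * η) := by
    rw [div_le_iff₀ hD0, hDd]
    refine hLL.trans (le_of_eq ?_)
    have e1 : x ^ (3 / 4 + η) = x ^ (2 * η) * x ^ (3 / 4 - η) := by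
      rw [← Real.rpow_add hx0]
      congr 1
      ring
    rw [e1]
    field_simp
  -- the scale
  obtain ⟨r', hr'⟩ : ∃ r' : ℝ, r' = max r (x ^ η) := ⟨_, rfl⟩
  have hr'1 : 1 ≤ r' := by rw [hr']; exact hr1.trans (le_max_left _ _)
  have hr'2 : r' ≤ x ^ (3 / 4 : ℝ) := by
    rw [hr']
    exact max_le hr2 (Real.rpow_le_rpow_of_exponent_le hx1 (by linarith))
  have hr'3 : r' ≤ r * x ^ η := by
    rw [hr']
    refine max_le ?_ ?_
    · nlinarith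
    · nlinarith
  have hr'4 : x ^ η ≤ r' := by rw [hr']; exact le_max_right _ _
  obtain ⟨m, hm1, hm2⟩ := pow_near hr'1
  have hbm : b0 ≤ m + 1 := by
    have : (2 : ℝ) ^ b0 < 2 ^ (m + 1) := by linarith
    exact ((pow_lt_pow_iff_right₀ (by norm_num : (1 : ℝ) < 2)).1 this).le
  have hbL : m + 1 ≤ L + 1 := by
    have : (2 : ℝ) ^ m ≤ 2 ^ L := by
      rw [pow_succ] at hm2
      linarith
    have := (pow_le_pow_iff_right₀ (by norm_num : (1 : ℝ) < 2)).1 this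
    omega
  obtain ⟨a, ha⟩ : ∃ a : ℝ, a = 3 / 4 - η := ⟨_, rfl⟩
  have ha0 : 0 < a := by rw [ha]; linarith
  have hR1 : (1 : ℝ) ≤ 2 ^ (m + 1) := one_le_pow₀ (by norm_num)
  obtain ⟨ℓ, hl1, hl2, hl3⟩ := block_len hR1 hc hc1 ha0 (by rw [ha]; linarith)
  have hl0 : 1 ≤ ℓ := by
    have : (1 : ℝ) ≤ ℓ := hR1.trans hl1
    exact_mod_cast this
  -- the blocks
  have hcount := count_det (D := D) hPos (b := m + 1) (ℓ := ℓ) (M := n / ℓ) ht hbad hA hxη hLam hb0 hbm hbL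
    (Nat.div_mul_le_self n ℓ) (fun i hi => by
      have hj : (i + 1) * ℓ ≤ n := (Nat.mul_le_mul_right ℓ hi).trans (Nat.div_mul_le_self n ℓ)
      have e1 : (((i + 1) * ℓ : ℕ) : ℝ) - ((i * ℓ : ℕ) : ℝ) = ℓ := by push_cast; ring
      have hij : i * ℓ < (i + 1) * ℓ := by
        rw [Nat.add_mul, Nat.one_mul]
        omega
      obtain ⟨⟨k, hk1, hk2, hk3⟩, -⟩ := hreg (i * ℓ) ((i + 1) * ℓ) hij hj (by
        rw [e1, ← hx]
        linarith)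
      rw [e1, ← ha] at hk3
      exact ⟨k, hk1, hk2, hl2.trans hk3⟩) h4 (by
      obtain ⟨⟨k, hk1, hk2, hk3⟩, -⟩ := hreg 0 n (by omega) le_rfl (by
        rw [Nat.cast_zero, sub_zero]
        calc (n : ℝ) ^ η ≤ (n : ℝ) ^ (1 : ℝ) := by
              rw [← hx]
              exact Real.rpow_le_rpow_of_exponent_le hx1 (by linarith)
          _ = n := Real.rpow_one _)
      rw [Nat.cast_zero, sub_zero, ← hx, ← hDd] at hk3
      exact ⟨k, hk2, hk3⟩)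
  have hNB := nb_le_cover hPos (b := m + 1) (r := r) (by
    have : r ≤ r' := by rw [hr']; exact le_max_left _ _
    linarith) hF
  have hNBr : (nb (m + 1) t : ℝ) ≤ 49 * (F.card : ℝ) := by exact_mod_cast hNB
  have hNB1 : (1 : ℝ) ≤ nb (m + 1) t := by exact_mod_cast nb_pos (m + 1) t
  obtain ⟨N, hN⟩ : ∃ N : ℝ, N = (nb (m + 1) t : ℝ) := ⟨_, rfl⟩
  rw [← hN] at hcount hNBr hNB1
  have hN0 : 0 ≤ N := by linarith
  have hx4 : x ^ (4 * η) = x ^ η * x ^ η * x ^ (2 * η) := by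
    rw [← Real.rpow_add hx0, ← Real.rpow_add hx0]
    congr 1
    ring
  have hx2 : x ^ η ≤ x ^ (2 * η) := Real.rpow_le_rpow_of_exponent_le hx1 (by linarith)
  have hM : ((n / ℓ : ℕ) : ℝ) ≤ K2 * x ^ (4 * η) * N := by
    refine hcount.trans ?_
    have g1 : 18 * ((L : ℝ) + 1) + 150 * 2 ^ (L + 1) / D ≤
        (144 * (η * Real.log 2)⁻¹ * c₀⁻¹ + 1200 * (c₀⁻¹ * c₀⁻¹)) * x ^ (2 * η) := by
      have g2 : (L : ℝ) + 1 ≤ (η * Real.log 2)⁻¹ * (8 * c₀⁻¹ * x ^ (2 * η)) :=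
        hG2.trans (mul_le_mul_of_nonneg_left (hG1.trans (mul_le_mul_of_nonneg_left hx2 (by positivity)))
          (by positivity))
      have g3 : 150 * 2 ^ (L + 1) / D = 150 * (2 ^ (L + 1) / D) := by ring
      rw [g3]
      nlinarith
    have g4 : 2 * (1 + 2 / ((Lam : ℝ) - 2)) ^ (L + 1) * A * x ^ η ≤ 2 * (8 * c₀⁻¹ * x ^ η) * A * x ^ η := by
      have := hrho.trans hG1
      have h5 : 0 ≤ A * x ^ η := by positivity
      nlinarith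
    have g5 : 0 ≤ 18 * ((L : ℝ) + 1) + 150 * 2 ^ (L + 1) / D := by positivity
    calc 2 * (1 + 2 / ((Lam : ℝ) - 2)) ^ (L + 1) * A * x ^ η * (18 * ((L : ℝ) + 1) + 150 * 2 ^ (L + 1) / D) * N ≤
        2 * (8 * c₀⁻¹ * x ^ η) * A * x ^ η *
          ((144 * (η * Real.log 2)⁻¹ * c₀⁻¹ + 1200 * (c₀⁻¹ * c₀⁻¹)) * x ^ (2 * η)) * N := by
          apply mul_le_mul_of_nonneg_right _ hN0
          exact mul_le_mul g4 g1 g5 (by positivity)
      _ = _ := by rw [hK2, hx4]; ring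
  have hdiv : x ≤ ℓ * (((n / ℓ : ℕ) : ℝ) + 1) := by
    rw [hx]
    have g1 := Nat.div_add_mod n ℓ
    have g2 := Nat.mod_lt n hl0
    have g3 : n ≤ ℓ * (n / ℓ + 1) := by
      rw [Nat.mul_add, Nat.mul_one]
      omega
    exact_mod_cast g3
  have hx4' : 1 ≤ x ^ (4 * η) := Real.one_le_rpow hx1 (by linarith)
  have hM1 : ((n / ℓ : ℕ) : ℝ) + 1 ≤ (K2 + 1) * x ^ (4 * η) * (49 * F.card) := by
    have g1 : (1 : ℝ) ≤ x ^ (4 * η) * N := by nlinarith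
    calc ((n / ℓ : ℕ) : ℝ) + 1 ≤ K2 * x ^ (4 * η) * N + x ^ (4 * η) * N := by linarith
      _ = (K2 + 1) * x ^ (4 * η) * N := by ring
      _ ≤ _ := mul_le_mul_of_nonneg_left hNBr (by positivity)
  -- the length of the blocks
  have hlen : (ℓ : ℝ) ≤ K3 * (r ^ (4 / 3 : ℝ) * x ^ (5 * η)) := by
    have g1 : 6 * 2 ^ (m + 1) / c₀ ≤ 12 / c₀ * r' := by
      rw [div_mul_eq_mul_div]
      apply div_le_div_of_nonneg_right _ hc.le
      linarith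
    have g2 : 1 ≤ 12 / c₀ * r' := by
      have : 1 ≤ 12 / c₀ := by rw [le_div_iff₀ hc]; linarith
      nlinarith
    have g3 : 1 / a ≤ 4 / 3 + 4 * η := by
      rw [div_le_iff₀ ha0, ha]
      nlinarith
    have g4 : (6 * 2 ^ (m + 1) / c₀) ^ (1 / a) ≤ (12 / c₀ * r') ^ (4 / 3 + 4 * η) :=
      (Real.rpow_le_rpow (by positivity) g1 (by positivity)).trans (Real.rpow_le_rpow_of_exponent_le g2 g3)
    have g5 : (12 / c₀ * r') ^ (4 / 3 + 4 * η) = (12 / c₀) ^ (4 / 3 + 4 * η) * (r' ^ (4 / 3 : ℝ) * r' ^ (4 * η)) := by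
      rw [Real.mul_rpow (by positivity) (by linarith), Real.rpow_add (x := r') (by linarith)]
    have g6 : (12 / c₀) ^ (4 / 3 + 4 * η) ≤ (12 / c₀) ^ (3 : ℝ) := by
      apply Real.rpow_le_rpow_of_exponent_le _ (by linarith)
      rw [le_div_iff₀ hc]
      linarith
    have g7 : r' ^ (4 / 3 : ℝ) ≤ r ^ (4 / 3 : ℝ) * x ^ (4 / 3 * η) := by
      calc r' ^ (4 / 3 : ℝ) ≤ (r * x ^ η) ^ (4 / 3 : ℝ) := Real.rpow_le_rpow (by linarith) hr'3 (by norm_num)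
        _ = r ^ (4 / 3 : ℝ) * (x ^ η) ^ (4 / 3 : ℝ) := Real.mul_rpow (by linarith) (by positivity)
        _ = _ := by
          rw [← Real.rpow_mul hx0.le]
          congr 2
          ring
    have g8 : r' ^ (4 * η) ≤ x ^ (3 * η) := by
      calc r' ^ (4 * η) ≤ (x ^ (3 / 4 : ℝ)) ^ (4 * η) := Real.rpow_le_rpow (by linarith) hr'2 (by positivity)
        _ = _ := by
          rw [← Real.rpow_mul hx0.le]
          congr 1
          ring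
    have g9 : x ^ (4 / 3 * η) * x ^ (3 * η) ≤ x ^ (5 * η) := by
      rw [← Real.rpow_add hx0]
      exact Real.rpow_le_rpow_of_exponent_le hx1 (by linarith)
    have hr0 : 0 < r := by linarith
    calc (ℓ : ℝ) ≤ 2 * ((12 / c₀) ^ (4 / 3 + 4 * η) * (r' ^ (4 / 3 : ℝ) * r' ^ (4 * η))) := by
          rw [← g5]
          linarith
      _ ≤ 2 * ((12 / c₀) ^ (3 : ℝ) * ((r ^ (4 / 3 : ℝ) * x ^ (4 / 3 * η)) * x ^ (3 * η))) := by
          apply mul_le_mul_of_nonneg_left _ (by norm_num)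
          exact mul_le_mul g6 (mul_le_mul g7 g8 (by positivity) (by positivity)) (by positivity) (by positivity)
      _ = K3 * (r ^ (4 / 3 : ℝ) * (x ^ (4 / 3 * η) * x ^ (3 * η))) := by rw [hK3]; ring
      _ ≤ _ := by
          apply mul_le_mul_of_nonneg_left _ hK3p.le
          exact mul_le_mul_of_nonneg_left g9 (by positivity)
  -- the end
  have hr0 : 0 < r ^ (4 / 3 : ℝ) := Real.rpow_pos_of_pos (by linarith) _
  have hfin : x ≤ (49 * K3 * (K2 + 1)) * (r ^ (4 / 3 : ℝ) * F.card) * x ^ (9 * η) := by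
    have e9 : x ^ (9 * η) = x ^ (5 * η) * x ^ (4 * η) := by
      rw [← Real.rpow_add hx0]
      congr 1
      ring
    calc x ≤ ℓ * (((n / ℓ : ℕ) : ℝ) + 1) := hdiv
      _ ≤ K3 * (r ^ (4 / 3 : ℝ) * x ^ (5 * η)) * ((K2 + 1) * x ^ (4 * η) * (49 * F.card)) :=
        mul_le_mul hlen hM1 (by positivity) (by positivity)
      _ = _ := by rw [e9]; ring
  rw [div_le_iff₀ hr0, inv_mul_le_iff₀ (by positivity)]
  have e1 : x ^ (1 - 9 * η) * x ^ (9 * η) = x := by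
    rw [← Real.rpow_add hx0]
    have : 1 - 9 * η + 9 * η = 1 := by ring
    rw [this, Real.rpow_one]
  have hx9 : 0 < x ^ (9 * η) := Real.rpow_pos_of_pos hx0 _
  have h12 : x ^ (1 - 9 * η) * x ^ (9 * η) ≤ (49 * K3 * (K2 + 1)) * (r ^ (4 / 3 : ℝ) * F.card) * x ^ (9 * η) := by
    rw [e1]
    exact hfin
  have h13 := le_of_mul_le_mul_right h12 hx9
  calc x ^ (1 - 9 * η) ≤ (49 * K3 * (K2 + 1)) * (r ^ (4 / 3 : ℝ) * F.card) := h13
    _ = _ := by ring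

end CovL
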