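import Pool.Agent.SDN.Peierls1F

/-!
The crowding estimate of one scale for all self-avoiding words, with any number of doublings per leaf
(`SDN.peierls1` has `12`).
-/

set_option autoImplicit false

namespace HexObs

namespace SDN

open Finset TS

open scoped ENNReal

open PE in
/-- a walk with m leaves of the scale b = k + 5 contains a chain of C1 -/
theorem crowd_word_lam (Λ : ℕ) : ∃ Cc : ℕ, 1 ≤ Cc ∧ ∀ (L k w0 m n u : ℕ) (dir : Bool) (t : List Bool) (e : ℕ → ℕ), t ∈ WL L → w0 ≤ k →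
    Lf dir (k + 5) t m u e → 4 ≤ m → Cc * 2 ^ w0 * nb (k + 5) t ≤ n →
    dbl (2 ^ (k + 4)) (lws t e 1 (m - 2)) ≤ Λ * m →
    ∃ s ∈ SAL (100 * 4 ^ L), ∃ gs : List (List Bool), gs ∈ C1 (2 ^ (k + 4)) (2 ^ (L + 1)) (k + 2) (2 ^ (k - w0)) n ((m - 4) / 2 + 1) ∧
      dbl (2 ^ (k + 4)) gs ≤ Λ * m ∧ ∃ r ∈ SAL (100 * 4 ^ L), t = s ++ ((unf gs).dropLast ++ r) := by
  obtain ⟨C, hC⟩ := caps_card
  refine ⟨16 * C + 1, by omega, fun L k w0 m n u dir t e ht hw0 h hm hn hd => ?_⟩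
  obtain ⟨J, hJ⟩ : ∃ J, J = 2 * ((m - 4) / 2 + 1) := ⟨_, rfl⟩
  have hJm : 1 + J + 1 ≤ m := by omega
  have hJ1 : 1 ≤ J := by omega
  obtain ⟨w1, w2, w3⟩ := lws_word ht.1 (by omega : 1 ≤ k + 5) h (le_refl 1) hJ1 hJm
  have hBr := lws_BrR ht (by omega : 1 ≤ k + 5) h (le_refl 1) hJm
  have e5 : k + 5 - 1 = k + 4 := rfl
  rw [e5] at hBr
  have hle1 := e_le h 1 (by omega)
  have hlt1 : e 1 < e 2 := h.lt 1 (by omega)
  have hle2 := e_le h 2 (by omega)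
  have htk : (t.take (e 1 + 1)).length = e 1 + 1 := by
    rw [List.length_take]
    omega
  obtain ⟨q, hq⟩ : ∃ q, q = t.drop (e 1 + 1) := ⟨_, rfl⟩
  have hq2 : q = (unf (lws t e 1 J)).dropLast ++ t.drop (e (1 + J) - 1) := by
    rw [hq]
    conv_lhs => rw [w1]
    rw [List.drop_left' htk]
  have hqs : q ∈ SA := by
    rw [hq]
    exact SA_drop ht.1 _
  have hHB : ∀ g ∈ lws t e 1 J, g ∈ HB (2 ^ (k + 4)) := by
    intro g hg
    obtain ⟨x, x1, _, x3⟩ := hBr g hg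
    exact ⟨x, x1, x3⟩
  obtain ⟨c1, c2⟩ := caps_nc (k := k) (w := 2 ^ (k - w0)) Nat.one_le_two_pow hqs hq2 hHB
    (by rw [lws_length, hJ]; exact ⟨(m - 4) / 2 + 1, by ring⟩)
  have hcard := hC k (k - w0) q (caps (k + 2) (2 ^ (k - w0)) 0 0 (lws t e 1 J)).toFinset (by omega) c1 (by
    intro x hx
    rw [List.mem_toFinset] at hx
    obtain ⟨i, j, hij, hj, l1, l2, l3, l4⟩ := c2 x hx
    refine ⟨i, j, by omega, hj, l1, l2, l3, ?_⟩
    rw [l4]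
    push_cast
    rfl)
  have hlen := WL_length ht
  refine ⟨t.take (e 1 + 1), ⟨SA_take ht.1 _, by rw [List.length_take]; omega⟩, lws t e 1 J, ⟨?_, w2, hBr, c1, ?_⟩,
    (dbl_lws_mono _ t e 1 (by omega)).trans hd, t.drop (e (1 + J) - 1), ⟨SA_drop ht.1 _, by
      rw [List.length_drop]; omega⟩, w1⟩
  · rw [lws_length, hJ]
  · refine hcard.trans (le_trans ?_ hn)
    have h1 : nb (k + 5) q ≤ 16 * nb (k + 5) t := by
      rw [hq]
      exact nb_drop _ _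
    have h2 : k - (k - w0) = w0 := by omega
    rw [h2]
    calc C * 2 ^ w0 * nb (k + 5) q ≤ C * 2 ^ w0 * (16 * nb (k + 5) t) := by gcongr
      _ = 16 * C * 2 ^ w0 * nb (k + 5) t := by ring
      _ ≤ (16 * C + 1) * 2 ^ w0 * nb (k + 5) t := by gcongr; omega


open PE in
theorem peierls_lam_of (Λ : ℕ) {K c Cs : ℝ} (hN : Nrm K c) (hCs : 0 < Cs) (hP : ∀ N k j1 j3 w K0 : ℕ, 1 ≤ w → w ≤ 2 ^ k → 1 ≤ K0 →
      j1 + 3 ≤ k → j3 ≤ j1 →
      Ch.PairCap (2 ^ (k + 4)) N k j1 j3 w (ENNReal.ofReal (Cs * (K0 * w * 2 ^ k / 4 ^ j3 + 1 / K0)))) :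
    ∃ (A C : ℝ) (b0 : ℕ), 1 ≤ A ∧ 0 < C ∧ ∀ (L b m : ℕ) (dir : Bool), 1 ≤ L → b0 ≤ b → b ≤ L + 2 → 1 ≤ m →
    gf {t | t ∈ WL L ∧ ∃ u e, Lf dir b t m u e ∧ A * nb b t ≤ m ∧ dbl (2 ^ (b - 1)) (lws t e 1 (m - 2)) ≤ Λ * m} ≤
      ENNReal.ofReal (((2 : ℝ) ^ L) ^ C * C / 4 ^ m) := by
  obtain ⟨k0, w0, Q, C0, hwk, hQ2, hC0, hch⟩ := crowd_chain' hN hCs hP Λ
  obtain ⟨Cc, hCc1, hword⟩ := crowd_word_lam Λ
  obtain ⟨Cp, hCp, hpoly⟩ := SAL_poly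
  -- the polynomial bound
  obtain ⟨G, hG⟩ : ∃ G : ℕ → ℝ, G = fun L => ((100 * 4 ^ L : ℕ) : ℝ) ^ Cp * Cp := ⟨_, rfl⟩
  have hGp : ∀ L, 0 < G L := by
    intro L
    rw [hG]
    have : (0 : ℝ) < ((100 * 4 ^ L : ℕ) : ℝ) := by positivity
    positivity
  have hGe : ∀ L, G L = Cp * 100 ^ Cp * ((2 : ℝ) ^ L) ^ (2 * Cp) := by
    intro L
    rw [hG]
    simp only
    push_cast
    rw [Real.mul_rpow (by norm_num) (by positivity), Real.rpow_mul (by positivity)]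
    have : (((2 : ℝ) ^ L) ^ (2 : ℝ)) = 4 ^ L := by
      rw [Real.rpow_two, ← pow_mul, mul_comm L 2, pow_mul]
      norm_num
    rw [this]
    ring
  obtain ⟨C1c, hC1c⟩ : ∃ C1c : ℝ, C1c = 2 * (Cp * 100 ^ Cp) ^ 2 * C0 * 8 + Cp * 100 ^ Cp * 4 ^ 4 + 1 := ⟨_, rfl⟩
  obtain ⟨C, hCe⟩ : ∃ C : ℝ, C = max C1c (4 * Cp + 1) := ⟨_, rfl⟩
  have h100 : (0 : ℝ) < Cp * 100 ^ Cp := by positivity
  have hC1 : 0 < C1c := by
    rw [hC1c]
    positivity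
  have hC : 0 < C := by
    rw [hCe]
    exact lt_max_of_lt_left hC1
  refine ⟨Cc * 2 ^ w0 * (2 * Q), C, k0 + 5, ?_, hC, fun L b m dir hL hb hbL hm => ?_⟩
  · have h1 : (1 : ℝ) ≤ Cc := by exact_mod_cast hCc1
    have h2 : (1 : ℝ) ≤ 2 ^ w0 := one_le_pow₀ (by norm_num)
    have h3 : (1 : ℝ) ≤ 2 * Q := by
      have : (2 : ℝ) ≤ Q := by exact_mod_cast hQ2
      linarith
    calc (1 : ℝ) = 1 * 1 * 1 := by norm_num
      _ ≤ Cc * 2 ^ w0 * (2 * Q) := by gcongr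
  have hX : (1 : ℝ) ≤ 2 ^ L := one_le_pow₀ (by norm_num)
  rcases Nat.lt_or_ge m 4 with hm4 | hm4
  · -- few leaves
    have h1 : {t | t ∈ WL L ∧ ∃ u e, Lf dir b t m u e ∧ (Cc * 2 ^ w0 * (2 * Q) : ℝ) * nb b t ≤ m ∧
        dbl (2 ^ (b - 1)) (lws t e 1 (m - 2)) ≤ Λ * m} ⊆ SAL (100 * 4 ^ L) := fun t ht => ⟨ht.1.1, WL_length ht.1⟩
    refine (gf_mono h1).trans ((hpoly _ (Nat.mul_pos (by norm_num) (by positivity))).trans ?_)
    apply ENNReal.ofReal_le_ofReal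
    have h2 := hGe L
    rw [hG] at h2
    simp only at h2
    rw [h2, le_div_iff₀ (by positivity)]
    have h4m : (4 : ℝ) ^ m ≤ 4 ^ 4 := pow_le_pow_right₀ (by norm_num) (by omega)
    calc Cp * 100 ^ Cp * ((2 : ℝ) ^ L) ^ (2 * Cp) * 4 ^ m ≤ Cp * 100 ^ Cp * ((2 : ℝ) ^ L) ^ C * 4 ^ 4 := by
          gcongr
          rw [hCe]
          exact le_trans (by linarith) (le_max_right _ _)
      _ = ((2 : ℝ) ^ L) ^ C * (Cp * 100 ^ Cp * 4 ^ 4) := by ring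
      _ ≤ ((2 : ℝ) ^ L) ^ C * C := by
          gcongr
          rw [hCe]
          refine le_trans ?_ (le_max_left _ _)
          rw [hC1c]
          have : 0 ≤ 2 * (Cp * 100 ^ Cp) ^ 2 * C0 * 8 := by positivity
          linarith
  · obtain ⟨k, rfl⟩ : ∃ k, b = k + 5 := ⟨b - 5, by omega⟩
    have hb1 : k + 5 - 1 = k + 4 := rfl
    obtain ⟨n, hn⟩ : ∃ n, n = m / (2 * Q) := ⟨_, rfl⟩
    have hn1 : 2 * Q * n ≤ m := by
      rw [hn]
      exact Nat.mul_div_le _ _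
    have hsum := hch k (2 ^ (L + 1)) m n (by omega) hm4 hn1
    obtain ⟨P, hPe⟩ : ∃ P : Set (List (List Bool)), P = {gs | gs ∈ C1 (2 ^ (k + 4)) (2 ^ (L + 1)) (k + 2) (2 ^ (k - w0)) n
      ((m - 4) / 2 + 1) ∧ dbl (2 ^ (k + 4)) gs ≤ Λ * m} := ⟨_, rfl⟩
    have hsplit := sum_split {t | t ∈ WL L ∧ ∃ u e, Lf dir (k + 5) t m u e ∧ (Cc * 2 ^ w0 * (2 * Q) : ℝ) * nb (k + 5) t ≤ m ∧
        dbl (2 ^ (k + 5 - 1)) (lws t e 1 (m - 2)) ≤ Λ * m} (100 * 4 ^ L) P (by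
      intro gs hgs
      rw [hPe] at hgs
      exact C1_brd Nat.one_le_two_pow hgs.1) (by
      rintro t ⟨ht, u, e, hLf, hnb, hdb⟩
      have hnb' : Cc * 2 ^ w0 * (2 * Q) * nb (k + 5) t ≤ m := by exact_mod_cast hnb
      have hnn : Cc * 2 ^ w0 * nb (k + 5) t ≤ n := by
        rw [hn, Nat.le_div_iff_mul_le (by omega)]
        calc Cc * 2 ^ w0 * nb (k + 5) t * (2 * Q) = Cc * 2 ^ w0 * (2 * Q) * nb (k + 5) t := by ring
          _ ≤ m := hnb'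
      obtain ⟨s, hs, gs, g1, g2, r, hr, htr⟩ := hword L k w0 m n u dir t e ht (by omega) hLf hm4 hnn hdb
      exact ⟨s, hs, gs, by rw [hPe]; exact ⟨g1, g2⟩, r, hr, htr⟩)
    refine hsplit.trans ?_
    have hsum' : ∑' gs : {gs // gs ∈ P}, wl gs.1 ≤ ENNReal.ofReal (C0 * Ub (k + 4) / 4 ^ m) := by
      rw [hPe]
      exact hsum
    have hp := hpoly (100 * 4 ^ L) (Nat.mul_pos (by norm_num) (by positivity))
    have hp' : gf (SAL (100 * 4 ^ L)) ≤ ENNReal.ofReal (G L) := by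
      rw [hG]
      exact hp
    have hU := (Ub_pos (k + 4)).le
    calc 2 * gf (SAL (100 * 4 ^ L)) ^ 2 * ∑' gs : {gs // gs ∈ P}, wl gs.1 ≤
          2 * ENNReal.ofReal (G L) ^ 2 * ENNReal.ofReal (C0 * Ub (k + 4) / 4 ^ m) := by gcongr
      _ = ENNReal.ofReal (2 * G L ^ 2 * (C0 * Ub (k + 4) / 4 ^ m)) := by
          have e2 : (2 : ℝ≥0∞) = ENNReal.ofReal 2 := by norm_num
          rw [e2, ← ENNReal.ofReal_pow (hGp L).le, ← ENNReal.ofReal_mul (by norm_num), ← ENNReal.ofReal_mul (by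
            have := hGp L
            positivity)]
      _ ≤ _ := by
          apply ENNReal.ofReal_le_ofReal
          have h3 : Ub (k + 4) ≤ 8 * 2 ^ L := by
            refine (Ub_le _).trans ?_
            calc (2 : ℝ) ^ (k + 4 + 1) ≤ 2 ^ (L + 3) := pow_le_pow_right₀ (by norm_num) (by omega)
              _ = 8 * 2 ^ L := by rw [pow_add]; ring
          rw [hGe L]
          have h5 : (((2 : ℝ) ^ L) ^ (2 * Cp)) ^ 2 * 2 ^ L = ((2 : ℝ) ^ L) ^ (4 * Cp + 1) := by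
            rw [Real.rpow_add (by positivity), Real.rpow_one, ← Real.rpow_natCast (((2 : ℝ) ^ L) ^ (2 * Cp)) 2,
              ← Real.rpow_mul (by positivity)]
            congr 2
            push_cast
            ring
          calc 2 * (Cp * 100 ^ Cp * ((2 : ℝ) ^ L) ^ (2 * Cp)) ^ 2 * (C0 * Ub (k + 4) / 4 ^ m) ≤
                2 * (Cp * 100 ^ Cp * ((2 : ℝ) ^ L) ^ (2 * Cp)) ^ 2 * (C0 * (8 * 2 ^ L) / 4 ^ m) := by gcongr
            _ = 2 * (Cp * 100 ^ Cp) ^ 2 * C0 * 8 * ((((2 : ℝ) ^ L) ^ (2 * Cp)) ^ 2 * 2 ^ L) / 4 ^ m := by ring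
            _ = 2 * (Cp * 100 ^ Cp) ^ 2 * C0 * 8 * ((2 : ℝ) ^ L) ^ (4 * Cp + 1) / 4 ^ m := by rw [h5]
            _ ≤ C * ((2 : ℝ) ^ L) ^ C / 4 ^ m := by
                gcongr
                · rw [hCe]
                  refine le_trans ?_ (le_max_left _ _)
                  rw [hC1c]
                  have : 0 ≤ Cp * 100 ^ Cp * 4 ^ 4 := by positivity
                  linarith
                · rw [hCe]
                  exact le_max_right _ _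
            _ = _ := by ring

/-- **the crowding estimate with `Λ m` doublings** -/
theorem peierls_lam (Λ : ℕ) : ∃ (A C : ℝ) (b0 : ℕ), 1 ≤ A ∧ 0 < C ∧ ∀ (L b m : ℕ) (dir : Bool), 1 ≤ L → b0 ≤ b →
    b ≤ L + 2 → 1 ≤ m →
    gf {t | t ∈ WL L ∧ ∃ u e, Lf dir b t m u e ∧ A * nb b t ≤ m ∧ dbl (2 ^ (b - 1)) (lws t e 1 (m - 2)) ≤ Λ * m} ≤
      ENNReal.ofReal (((2 : ℝ) ^ L) ^ C * C / 4 ^ m) := by
  obtain ⟨K, c, hN⟩ := nrm_exists
  obtain ⟨Cs, hCs, hP⟩ := pairCap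
  exact peierls_lam_of Λ hN hCs (fun N k j1 j3 w K0 h1 h2 h3 _ _ => hP N k j1 j3 w K0 h1 h2 h3)

end SDN

end HexObs
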