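import Pool.Agent.CovL.Geom
import Pool.Agent.CovL.BadW
import Pool.Agent.MS.Fin

/-!
The dictionary: coded walks and turn words; the proportion of the walks whose word is bad.
-/

set_option autoImplicit false

namespace CovL

open Finset HexObs HexObs.SDN TS

open scoped ENNReal

/-- the turn word of a coded walk -/
noncomputable def wd {n : ℕ} (s : Fin n → Fin 3) : List Bool := HexMu.tword (SawNu.encHex.word s) ++ [true]

lemma hf' {f : ℕ → Fin 3 → ℂ} (hf : MS.Hex f) (i : ℕ) (a : Fin 3) :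
    f i a = SawNu.encHex.φ (SawNu.encHex.st i.bodd a) := by rw [hf, SawNu.hex_enc]

lemma pw_ps {f : ℕ → Fin 3 → ℂ} (hf : MS.Hex f) {n : ℕ} (s : Fin n → Fin 3) (j : ℕ) :
    MS.pw f s j = SawNu.phiTri (SawNu.ps (SawNu.encHex.word s) j) :=
  (SawNu.encHex.word_ps s (hf' hf) j).symm

lemma SA_word {f : ℕ → Fin 3 → ℂ} (hf : MS.Hex f) {n : ℕ} {s : Fin n → Fin 3} (hs : s ∈ MS.SW f n) :
    SawNu.SA (SawNu.encHex.word s) := by
  rw [← SawNu.encHex.word_sa s (hf' hf)]
  exact (Finset.mem_filter.1 hs).2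

/-- the first step and the rest -/
lemma word_cons {n : ℕ} (s : Fin (n + 1) → Fin 3) : ∃ l, SawNu.encHex.word s = SawNu.encHex.st false (s 0) :: l := by
  unfold SawNu.Enc.word
  rw [List.ofFn_succ]
  exact ⟨List.ofFn fun i : Fin n => SawNu.encHex.st ((i.succ : Fin (n + 1)) : ℕ).bodd (s i.succ), by
    rw [Fin.val_zero, Nat.bodd_zero]⟩

lemma wd_length {n : ℕ} (hn : 1 ≤ n) (s : Fin n → Fin 3) : (wd s).length = n := by
  obtain ⟨m, rfl⟩ : ∃ m, n = m + 1 := ⟨n - 1, by omega⟩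
  obtain ⟨l, hl⟩ := word_cons s
  have h1 := SawNu.encHex.word_length s
  unfold wd
  rw [hl] at h1 ⊢
  rw [List.length_append, HexMu.tword_length, List.length_singleton]
  simpa using h1

/-- **the dictionary** -/
theorem wd_pos {f : ℕ → Fin 3 → ℂ} (hf : MS.Hex f) {n : ℕ} (hn : 1 ≤ n) {s : Fin n → Fin 3} (hs : s ∈ MS.SW f n) :
    Pos (MS.pw f s) (wd s) n ∧ wd s ∈ SA := by
  have hlen := wd_length hn s
  have h3 := SA_word hf hs
  have h2 := SawNu.encHex.word_tw s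
  have hL := SawNu.encHex.word_length s
  obtain ⟨m, rfl⟩ : ∃ m, n = m + 1 := ⟨n - 1, by omega⟩
  obtain ⟨l, hl⟩ := word_cons s
  have hpw := pw_ps hf s
  unfold wd at hlen ⊢
  rw [hl] at h3 h2 hL hlen hpw ⊢
  obtain ⟨d, hd⟩ : ∃ d, d = SawNu.encHex.st false (s 0) := ⟨_, rfl⟩
  rw [← hd] at h3 h2 hL hlen hpw ⊢
  rw [List.length_cons] at hL
  have hs0 := h2.1
  have hup : up ∈ dirs := by decide
  obtain ⟨t', ht'⟩ : ∃ t', t' = HexMu.tword (d :: l) := ⟨_, rfl⟩
  rw [← ht'] at hlen ⊢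
  have hl2 : t'.length + 1 = m + 1 := by
    rw [List.length_append, List.length_singleton] at hlen
    exact hlen
  have hvx : ∀ i, i ≤ m + 1 → vx oo up (t' ++ [true]) i = vx oo up t' i := fun i hi => vx_append (by omega)
  have h0 : (oo : Pt) = 0 := rfl
  have e1 : ∀ i, i ≤ m + 1 → SawNu.ps (d :: l) i = HexMu.psi (vx oo (HexMu.phi d) t' i) := by
    intro i hi
    have := HexMu.vx_tword h2 h3 oo i (by omega)
    rw [← this, h0, sub_zero, ht']
  refine ⟨⟨hlen, ?_⟩, ⟨fun _ _ _ => trivial, ?_⟩⟩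
  · intro i j hi hj
    have e2 : MS.pw f s i - MS.pw f s j =
        SawNu.phiTri (HexMu.psi (vx oo (HexMu.phi d) t' i - vx oo (HexMu.phi d) t' j)) := by
      rw [hpw, hpw, e1 i hi, e1 j hj, ← map_sub, ← HexMu.psi_sub]
    rw [e2, CMP.norm_phiTri_psi, hvx i hi, hvx j hj]
    have hdd := HexMu.phi_dirs hs0
    have r1 := rotTo_apply up hdd
    have r2 : ∀ i, vx oo up t' i = mulE (rotTo (HexMu.phi d) up) (vx oo (HexMu.phi d) t' i) := by
      intro i
      have h2 : vx oo (mulE (rotTo (HexMu.phi d) up) (HexMu.phi d)) t' i =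
        oo + mulE (rotTo (HexMu.phi d) up) (vx oo (HexMu.phi d) t' i - oo) := vx_mulE _ oo oo _ t' i
      rw [r1, h0, sub_zero, zero_add] at h2
      exact h2
    rw [r2 i, r2 j]
    have r3 : mulE (rotTo (HexMu.phi d) up) (vx oo (HexMu.phi d) t' i) -
        mulE (rotTo (HexMu.phi d) up) (vx oo (HexMu.phi d) t' j) =
        mulE (rotTo (HexMu.phi d) up) (vx oo (HexMu.phi d) t' i - vx oo (HexMu.phi d) t' j) := by
      have h4 := mulE_add (rotTo (HexMu.phi d) up) (vx oo (HexMu.phi d) t' i - vx oo (HexMu.phi d) t' j)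
        (vx oo (HexMu.phi d) t' j)
      rw [sub_add_cancel] at h4
      rw [h4, add_sub_cancel_right]
    rw [r3, nrm_mulE, nrm_rotTo hdd hup, one_mul]
  · intro i k hik hk he
    rw [hlen] at hk
    rw [hvx i (by omega), hvx k hk, ht'] at he
    have h4 := HexMu.vx_tword_inj h2 h3 oo hik (by omega)
    exact h4 (PHWDict.dist_rot hup (HexMu.phi_dirs hs0) oo oo he)

/-- the word and the first step determine the walk -/
theorem wd_inj {f : ℕ → Fin 3 → ℂ} (hf : MS.Hex f) {m : ℕ} {s s' : Fin (m + 1) → Fin 3}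
    (hs : s ∈ MS.SW f (m + 1)) (hs' : s' ∈ MS.SW f (m + 1)) (h : wd s = wd s') (h0 : s 0 = s' 0) : s = s' := by
  have h3 := SA_word hf hs
  have h3' := SA_word hf hs'
  have h2 := SawNu.encHex.word_tw s
  have h2' := SawNu.encHex.word_tw s'
  obtain ⟨l, hl⟩ := word_cons s
  obtain ⟨l', hl'⟩ := word_cons s'
  unfold wd at h
  have h4 := List.append_inj_left' h rfl
  rw [hl, hl', h0] at h4
  rw [hl, h0] at h3 h2
  rw [hl'] at h3' h2'
  have h5 := HexMu.tword_inj h2 h3 h2' h3' h4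
  apply SawNu.encHex.word_inj
  rw [hl, hl', h0, h5]

/-- the number of the walks with a word in a given set -/
theorem card_wd_le {f : ℕ → Fin 3 → ℂ} (hf : MS.Hex f) {n : ℕ} (hn : 1 ≤ n) (B : Set (List Bool))
    [DecidablePred fun s : Fin n → Fin 3 => wd s ∈ B] :
    ((MS.SW f n).filter (fun s => wd s ∈ B)).card ≤ 3 * {t | t ∈ B ∧ t.length = n}.ncard := by
  classical
  obtain ⟨m, rfl⟩ : ∃ m, n = m + 1 := ⟨n - 1, by omega⟩
  obtain ⟨T, hT⟩ : ∃ T : Set (List Bool), T = {t | t ∈ B ∧ t.length = m + 1} := ⟨_, rfl⟩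
  have hTf : T.Finite := by
    rw [hT]
    exact (List.finite_length_eq Bool (m + 1)).subset (fun _ ht => ht.2)
  rw [← hT]
  have h3 : (Set.univ : Set (Fin 3)).ncard = 3 := by
    rw [Set.ncard_univ]
    simp
  have hc : 3 * T.ncard = ((Set.univ : Set (Fin 3)) ×ˢ T).ncard := by rw [Set.ncard_prod, h3]
  rw [hc, ← Set.ncard_coe_finset]
  have hfin : ((Set.univ : Set (Fin 3)) ×ˢ T).Finite := (Set.finite_univ).prod hTf
  refine Set.ncard_le_ncard_of_injOn (fun s : Fin (m + 1) → Fin 3 => (s 0, wd s)) ?_ ?_ hfin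
  · intro s hs
    rw [Finset.mem_coe, Finset.mem_filter] at hs
    refine ⟨trivial, ?_⟩
    rw [hT]
    exact ⟨hs.2, wd_length hn s⟩
  · intro s hs s' hs' he
    rw [Finset.mem_coe, Finset.mem_filter] at hs hs'
    simp only [Prod.mk.injEq] at he
    exact wd_inj hf hs.1 hs'.1 he.2 he.1

lemma gf_ge {B : Set (List Bool)} (n : ℕ) :
    ({t | t ∈ B ∧ t.length = n}.ncard : ℝ≥0∞) * ENNReal.ofReal (xc ^ n) ≤ gf B := by
  obtain ⟨T, hT⟩ : ∃ T : Set (List Bool), T = {t | t ∈ B ∧ t.length = n} := ⟨_, rfl⟩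
  rw [← hT]
  have hTf : T.Finite := by
    rw [hT]
    exact (List.finite_length_eq Bool n).subset (fun _ ht => ht.2)
  have h1 : gf T ≤ gf B := gf_mono (by rw [hT]; exact fun t ht => ht.1)
  refine le_trans (le_of_eq ?_) h1
  unfold gf
  have := hTf.fintype
  rw [tsum_fintype]
  have h2 : ∀ t : T, wE (t : List Bool) = ENNReal.ofReal (xc ^ n) := by
    rintro ⟨t, ht⟩
    rw [hT] at ht
    unfold wE
    rw [ht.2]
  rw [Finset.sum_congr rfl fun t _ => h2 t, Finset.sum_const, nsmul_eq_mul, Finset.card_univ,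
    Set.ncard_eq_toFinset_card' T, Set.toFinset_card]

/-- **the proportion of the walks with a bad word** -/
theorem prop_le {f : ℕ → Fin 3 → ℂ} (hf : MS.Hex f) {n : ℕ} (hn : 1 ≤ n) (B : Set (List Bool)) {K : ℝ} (hK : 0 ≤ K)
    (hB : gf B ≤ ENNReal.ofReal K) [DecidablePred fun s : Fin n → Fin 3 => wd s ∈ B] :
    (((MS.SW f n).filter (fun s => wd s ∈ B)).card : ℝ) ≤ 3 * K * ((MS.SW f n).card : ℝ) := by
  have hx := xc_pos
  have h1 := card_wd_le hf hn B
  have h2 := (gf_ge (B := B) n).trans hB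
  have h3 : ({t | t ∈ B ∧ t.length = n}.ncard : ℝ) * xc ^ n ≤ K := by
    rw [← ENNReal.ofReal_natCast, ← ENNReal.ofReal_mul (Nat.cast_nonneg _)] at h2
    exact (ENNReal.ofReal_le_ofReal_iff hK).1 h2
  have h4 := card_ge n
  have h5 : ((MS.SW f n).card : ℝ) = ((SawNu.WS SawNu.hexL n).card : ℝ) := by
    rw [MS.card_SW hf hn]
    classical
    have h6 : MS.SW f n = Finset.univ.filter (fun s : Fin n → Fin 3 => SawNu.SAC f n s) := by
      ext s
      unfold MS.SW
      rw [Finset.mem_filter, Finset.mem_filter]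
      exact Iff.rfl
    have h7 := SawNu.encHex.bridge_card (hf' hf) n
    rw [← MS.card_SW hf hn, h6]
    exact_mod_cast h7
  rw [h5]
  have h7 : (((MS.SW f n).filter (fun s => wd s ∈ B)).card : ℝ) ≤ 3 * ({t | t ∈ B ∧ t.length = n}.ncard : ℝ) := by
    exact_mod_cast h1
  have hp : 0 < xc ^ n := pow_pos hx n
  have h8 : ({t | t ∈ B ∧ t.length = n}.ncard : ℝ) ≤ K * ((SawNu.WS SawNu.hexL n).card : ℝ) := by
    have h9 : ({t | t ∈ B ∧ t.length = n}.ncard : ℝ) * xc ^ n ≤ K * (((SawNu.WS SawNu.hexL n).card : ℝ) * xc ^ n) := by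
      refine h3.trans ?_
      nlinarith
    rw [← mul_assoc] at h9
    exact le_of_mul_le_mul_right h9 hp
  linarith

end CovL
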